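import Mathlib

set_option autoImplicit false

namespace Pool.Agent.Results.MP_53fdf7_co.KOrbit

/-!
# `k`-orbit `n`-polytopes without digonal sections

For an `n`-polytope `K` and a group `W` generated by involutions `s v`, one for each vertex `v` of
`K`, let `Pow` be the poset with a least face and the faces `(F, w W_F)`, where `F` is a face of `K`
and `W_F` is generated by the `s v` with `v ≤ F`. It is an `(n + 1)`-polytope whose vertex figures
are copies of `K`. We take for `W` an elementary abelian `2`-group whose basis is the set of colours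
of a colouring of the vertices of `K`. Then the flag orbits of `Pow` correspond to the flag orbits
of the group of automorphisms of `K` that preserve the partition into colour classes. If all
vertices have different colours, this keeps the number of flag orbits and raises the rank. If `K` is
a `2k`-gon and only two antipodal vertices have the same colour, the result is a `k`-orbit
`3`-polytope.
-/

/-- Two flags (maximal chains) are adjacent if they differ in exactly one face. -/
def Adj {P : Type} [PartialOrder P] (A B : Flag P) : Prop :=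
  ∃ F ∈ A, ∃ G ∈ B, F ≠ G ∧ (A : Set P) \ {F} = (B : Set P) \ {G}

/-- The partially ordered set `P` with rank function `rk` is an abstract polytope of rank `n`:
there are a least face (of rank `-1`) and a greatest face (of rank `n`), every flag contains exactly
one face of each rank `-1, ..., n`, it is strongly flag-connected, and it satisfies the diamond
condition. -/
structure IsPolytope (n : ℤ) {P : Type} [PartialOrder P] (rk : P → ℤ) : Prop where
  strictMono : StrictMono rk
  least : ∃ F, rk F = -1 ∧ ∀ G, F ≤ G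
  greatest : ∃ F, rk F = n ∧ ∀ G, G ≤ F
  flag_rank : ∀ (Φ : Flag P) (i : ℤ), -1 ≤ i → i ≤ n → ∃! F, F ∈ Φ ∧ rk F = i
  connected : ∀ Φ Ψ : Flag P,
    Relation.ReflTransGen (fun A B => Adj A B ∧ ∀ F ∈ Φ, F ∈ Ψ → F ∈ A ∧ F ∈ B) Φ Ψ
  diamond : ∀ F G, F < G → rk G = rk F + 2 → {H | F < H ∧ H < G}.ncard = 2

/-- No section of rank `2` is a digon, that is, no section `G / F` of rank
`rk G - rk F - 1 = 2` has exactly two vertices. -/
def NoDigon {P : Type} [PartialOrder P] (rk : P → ℤ) : Prop :=
  ∀ F G, F < G → rk G - rk F - 1 = 2 → {H | F < H ∧ H < G ∧ rk H = rk F + 1}.ncard ≠ 2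

/-- The number of orbits of the automorphism group on the flags. -/
noncomputable def flagOrbits (P : Type) [PartialOrder P] : ℕ :=
  Nat.card (Quot fun Φ Ψ : Flag P => ∃ g : P ≃o P, Flag.map g Φ = Ψ)

section construction

variable {K : Type} [PartialOrder K] (rk : K → ℤ) {W : Type} [Group W] (s : K → W)

/-- The subgroup generated by the involutions attached to the vertices of `F`. -/
def par (F : K) : Subgroup W := Subgroup.closure (s '' {v | v ≤ F ∧ rk v = 0})

theorem par_mono {F G : K} (h : F ≤ G) : par rk s F ≤ par rk s G := by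
  apply Subgroup.closure_mono
  apply Set.image_mono
  rintro v ⟨h1, h2⟩
  exact ⟨h1.trans h, h2⟩

/-- The left coset of `w`. -/
def cos (F : K) (w : W) : Set W := {x | w⁻¹ * x ∈ par rk s F}

theorem mem_cos_self (F : K) (w : W) : w ∈ cos rk s F w := by
  simp [cos, one_mem]

theorem cos_eq {F : K} {w u : W} (h : u ∈ cos rk s F w) : cos rk s F w = cos rk s F u := by
  ext x
  simp only [cos, Set.mem_ofPred_eq] at *
  constructor
  · intro hx
    have := mul_mem (inv_mem h) hx
    simpa [mul_assoc] using this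
  · intro hx
    have := mul_mem h hx
    simpa [mul_assoc] using this

/-- The proper faces of the new polytope. -/
def Cell : Type := {X : K × Set W // ∃ w, X.2 = cos rk s X.1 w}

instance : PartialOrder (Cell rk s) := by unfold Cell; infer_instance

/-- The new polytope. -/
abbrev Pow : Type := WithBot (Cell rk s)

/-- The face given by `F` and the coset of `w`. -/
def cell (F : K) (w : W) : Cell rk s := ⟨(F, cos rk s F w), w, rfl⟩

theorem exists_cell (X : Cell rk s) : ∃ F w, X = cell rk s F w := by
  obtain ⟨⟨F, C⟩, w, hw⟩ := X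
  refine ⟨F, w, ?_⟩
  apply Subtype.ext
  exact Prod.ext rfl hw

theorem cell_le {F G : K} {w u : W} :
    cell rk s F w ≤ cell rk s G u ↔ F ≤ G ∧ w⁻¹ * u ∈ par rk s G := by
  change (F ≤ G ∧ cos rk s F w ⊆ cos rk s G u) ↔ _
  constructor
  · rintro ⟨h1, h2⟩
    refine ⟨h1, ?_⟩
    have := h2 (mem_cos_self rk s F w)
    simp only [cos, Set.mem_ofPred_eq] at this
    have := inv_mem this
    simpa using this
  · rintro ⟨h1, h2⟩
    refine ⟨h1, ?_⟩
    have h3 : w ∈ cos rk s G u := by
      simp only [cos, Set.mem_ofPred_eq]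
      have := inv_mem h2
      simpa using this
    rw [cos_eq rk s h3]
    intro x hx
    exact par_mono rk s h1 hx

theorem cell_eq {F G : K} {w u : W} :
    cell rk s F w = cell rk s G u ↔ F = G ∧ w⁻¹ * u ∈ par rk s F := by
  constructor
  · intro h
    have h1 := (cell_le rk s).1 h.le
    have h2 := (cell_le rk s).1 h.ge
    have h3 : F = G := le_antisymm h1.1 h2.1
    exact ⟨h3, h3 ▸ h1.2⟩
  · rintro ⟨rfl, h⟩
    apply le_antisymm
    · exact (cell_le rk s).2 ⟨le_rfl, h⟩
    · refine (cell_le rk s).2 ⟨le_rfl, ?_⟩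
      have := inv_mem h
      simpa using this

theorem cell_lt {F G : K} {w u : W} :
    cell rk s F w < cell rk s G u ↔ F < G ∧ w⁻¹ * u ∈ par rk s G := by
  rw [lt_iff_le_and_ne, cell_le, Ne, cell_eq, lt_iff_le_and_ne]
  constructor
  · rintro ⟨⟨h1, h2⟩, h3⟩
    refine ⟨⟨h1, ?_⟩, h2⟩
    rintro rfl
    exact h3 ⟨rfl, h2⟩
  · rintro ⟨⟨h1, h2⟩, h3⟩
    exact ⟨⟨h1, h3⟩, fun h => h2 h.1⟩

/-- The rank function. -/
def rkP : Pow rk s → ℤ := fun X => WithBot.recBotCoe (-1) (fun Y : Cell rk s => rk Y.1.1 + 1) X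

@[simp] theorem rkP_bot : rkP rk s ⊥ = -1 := rfl
@[simp] theorem rkP_cell (F : K) (w : W) :
    rkP rk s ((cell rk s F w : Cell rk s) : Pow rk s) = rk F + 1 := rfl

theorem pow_cases {p : Pow rk s → Prop} (h0 : p ⊥)
    (h1 : ∀ F w, p ((cell rk s F w : Cell rk s) : Pow rk s)) : ∀ X, p X := by
  intro X
  induction X using WithBot.recBotCoe with
  | bot => exact h0
  | coe X =>
    obtain ⟨F, w, rfl⟩ := exists_cell rk s X
    exact h1 F w

/-- A set of faces that contains exactly the faces comparable with all its members is a flag. -/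
def mkFlag {P : Type} [PartialOrder P] (S : Set P)
    (h : ∀ a, a ∈ S ↔ ∀ b ∈ S, a ≤ b ∨ b ≤ a) : Flag P where
  carrier := S
  Chain' := by
    intro a ha b hb _
    exact (h a).1 ha b hb
  max_chain' := by
    intro T hT hST
    apply Set.Subset.antisymm hST
    intro a ha
    refine (h a).2 fun b hb => ?_
    exact hT.total ha (hST hb)

variable {rk} {n : ℤ}

theorem IsPolytope.ge (h : IsPolytope n rk) (F : K) : -1 ≤ rk F := by
  obtain ⟨B, hB, hB'⟩ := h.least
  have := h.strictMono.monotone (hB' F)
  omega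

theorem IsPolytope.le (h : IsPolytope n rk) (F : K) : rk F ≤ n := by
  obtain ⟨B, hB, hB'⟩ := h.greatest
  have := h.strictMono.monotone (hB' F)
  omega

theorem IsPolytope.bot_le (h : IsPolytope n rk) {B : K} (hB : rk B = -1) (F : K) : B ≤ F := by
  obtain ⟨C, hC, hC'⟩ := h.least
  have h1 : C = B := by
    rcases (hC' B).lt_or_eq with h2 | h2
    · have := h.strictMono h2
      omega
    · exact h2
  exact h1 ▸ hC' F

theorem IsPolytope.le_top (h : IsPolytope n rk) {B : K} (hB : rk B = n) (F : K) : F ≤ B := by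
  obtain ⟨C, hC, hC'⟩ := h.greatest
  have h1 : B = C := by
    rcases (hC' B).lt_or_eq with h2 | h2
    · have := h.strictMono h2
      omega
    · exact h2
  exact h1 ▸ hC' F

theorem IsPolytope.eq_of_le (h : IsPolytope n rk) {F G : K} (hFG : F ≤ G) (hr : rk F = rk G) :
    F = G := by
  rcases hFG.lt_or_eq with h2 | h2
  · have := h.strictMono h2
    omega
  · exact h2

theorem IsPolytope.lt_of_mem (h : IsPolytope n rk) {Φ : Flag K} {F G : K} (hF : F ∈ Φ)
    (hG : G ∈ Φ) (hr : rk F < rk G) : F < G := by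
  rcases Φ.le_or_le hF hG with h1 | h1
  · exact lt_of_le_of_ne h1 (by rintro rfl; omega)
  · have := h.strictMono.monotone h1
    omega

theorem IsPolytope.le_of_mem (h : IsPolytope n rk) {Φ : Flag K} {F G : K} (hF : F ∈ Φ)
    (hG : G ∈ Φ) (hr : rk F ≤ rk G) : F ≤ G := by
  rcases Φ.le_or_le hF hG with h1 | h1
  · exact h1
  · exact (h.eq_of_le h1 (le_antisymm (h.strictMono.monotone h1) hr)).symm.le

theorem IsPolytope.le_rk_map (h : IsPolytope n rk) (g : K ≃o K) :
    ∀ (m : ℕ) (F : K), rk F = (m : ℤ) - 1 → rk F ≤ rk (g F) := by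
  intro m
  induction m with
  | zero =>
    intro F hF
    have := h.ge (g F)
    simp at hF
    omega
  | succ m ih =>
    intro F hF
    obtain ⟨Φ, hΦ⟩ := Flag.exists_mem F
    have hle := h.le F
    push_cast at hF
    obtain ⟨G, ⟨hG, hG'⟩, -⟩ := h.flag_rank Φ (m - 1) (by omega) (by omega)
    have h1 := ih G hG'
    have h2 : G < F := h.lt_of_mem hG hΦ (by omega)
    have h3 := h.strictMono (g.strictMono h2)
    omega

theorem IsPolytope.rk_map (h : IsPolytope n rk) (g : K ≃o K) (F : K) : rk (g F) = rk F := by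
  apply le_antisymm
  · have h1 := h.le_rk_map g.symm (rk (g F) + 1).toNat (g F) (by
      have := h.ge (g F)
      rw [Int.toNat_of_nonneg (by omega)]
      ring)
    simpa using h1
  · exact h.le_rk_map g (rk F + 1).toNat F (by
      have := h.ge F
      rw [Int.toNat_of_nonneg (by omega)]
      ring)

theorem par_bot (h : IsPolytope n rk) {B : K} (hB : rk B = -1) : par rk s B = ⊥ := by
  have h1 : {v | v ≤ B ∧ rk v = 0} = ∅ := by
    ext v
    simp only [Set.mem_ofPred_eq, Set.mem_empty_iff_false, iff_false, not_and]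
    intro h1 h2
    have := h.strictMono.monotone h1
    omega
  rw [par, h1]
  simp

theorem mem_par_of_le {v F : K} (h : v ≤ F) (hv : rk v = 0) : s v ∈ par rk s F :=
  Subgroup.subset_closure ⟨v, ⟨h, hv⟩, rfl⟩

theorem mem_par_vert (h : IsPolytope n rk) (hinv : ∀ v, rk v = 0 → s v * s v = 1) {v : K}
    (hv : rk v = 0) {x : W} : x ∈ par rk s v ↔ x = 1 ∨ x = s v := by
  constructor
  · intro hx
    induction hx using Subgroup.closure_induction with
    | mem x hx =>
      obtain ⟨u, ⟨hu1, hu2⟩, rfl⟩ := hx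
      right
      rw [h.eq_of_le hu1 (by omega)]
    | one => left; rfl
    | mul x y _ _ hx hy =>
      rcases hx with rfl | rfl <;> rcases hy with rfl | rfl
      · simp
      · simp
      · simp
      · left; exact hinv v hv
    | inv x _ hx =>
      rcases hx with rfl | rfl
      · simp
      · right
        exact inv_eq_of_mul_eq_one_left (hinv v hv)
  · rintro (rfl | rfl)
    · exact one_mem _
    · exact mem_par_of_le s le_rfl hv

/-- The flag of the new polytope given by a flag of `K` and an element of `W`. -/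
def lift (Φ : Flag K) (w : W) : Flag (Pow rk s) :=
  mkFlag {X | X = ⊥ ∨ ∃ F ∈ Φ, X = ((cell rk s F w : Cell rk s) : Pow rk s)} (by
    intro a
    constructor
    · rintro (rfl | ⟨F, hF, rfl⟩) b hb
      · left; exact bot_le
      · rcases hb with rfl | ⟨G, hG, rfl⟩
        · right; exact bot_le
        · rw [WithBot.coe_le_coe, WithBot.coe_le_coe, cell_le, cell_le]
          simp only [inv_mul_cancel, one_mem, and_true]
          exact Φ.le_or_le hF hG
    · intro hb
      revert hb
      induction a using pow_cases with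
      | h0 => intro _; left; rfl
      | h1 G u =>
        intro hb
        right
        have h1 : G ∈ Φ := by
          rw [Flag.mem_iff_forall_le_or_ge]
          intro F hF
          have := hb _ (Or.inr ⟨F, hF, rfl⟩)
          rw [WithBot.coe_le_coe, WithBot.coe_le_coe, cell_le, cell_le] at this
          exact this.imp And.left And.left
        refine ⟨G, h1, ?_⟩
        have := hb _ (Or.inr ⟨G, h1, rfl⟩)
        rw [WithBot.coe_le_coe, WithBot.coe_le_coe, cell_le, cell_le] at this
        rw [WithBot.coe_inj, cell_eq]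
        refine ⟨rfl, ?_⟩
        rcases this with h2 | h2
        · exact h2.2
        · have := inv_mem h2.2
          simpa using this)

theorem bot_mem_lift (Φ : Flag K) (w : W) : (⊥ : Pow rk s) ∈ lift s Φ w := Or.inl rfl

theorem cell_mem_lift {Φ : Flag K} {w : W} {G : K} {u : W} :
    ((cell rk s G u : Cell rk s) : Pow rk s) ∈ lift s Φ w ↔ G ∈ Φ ∧ w⁻¹ * u ∈ par rk s G := by
  change (_ ∨ ∃ F ∈ Φ, _) ↔ _
  constructor
  · rintro (h | ⟨F, hF, h⟩)
    · exact absurd h (WithBot.coe_ne_bot)
    · rw [WithBot.coe_inj, cell_eq] at h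
      obtain ⟨rfl, h⟩ := h
      refine ⟨hF, ?_⟩
      have := inv_mem h
      simpa using this
  · rintro ⟨h1, h2⟩
    right
    refine ⟨G, h1, ?_⟩
    rw [WithBot.coe_inj, cell_eq]
    refine ⟨rfl, ?_⟩
    have := inv_mem h2
    simpa using this

/-- The hypotheses on the involutions. -/
structure Good (rk : K → ℤ) (s : K → W) : Prop where
  inv : ∀ v, rk v = 0 → s v * s v = 1
  ne_one : ∀ v, rk v = 0 → s v ≠ 1
  gen : Subgroup.closure (s '' {v | rk v = 0}) = ⊤
  edge : ∀ E a b, rk E = 1 → a ≤ E → b ≤ E → rk a = 0 → rk b = 0 → s a = s b → a = b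

theorem cell_eq_of_mem {G : K} {w u : W} (h : w⁻¹ * u ∈ par rk s G) :
    cell rk s G w = cell rk s G u := (cell_eq rk s).2 ⟨rfl, h⟩

theorem par_top (h : IsPolytope n rk) (hs : Good rk s) {T : K} (hT : rk T = n) :
    par rk s T = ⊤ := by
  rw [← hs.gen, par]
  congr 2
  ext v
  simp only [Set.mem_ofPred_eq, and_iff_right_iff_imp]
  intro _
  exact h.le_top hT v

theorem le_cell_top (h : IsPolytope n rk) (hs : Good rk s) {T : K} (hT : rk T = n) (w : W)
    (X : Pow rk s) : X ≤ ((cell rk s T w : Cell rk s) : Pow rk s) := by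
  induction X using pow_cases with
  | h0 => exact bot_le
  | h1 F u =>
    rw [WithBot.coe_le_coe, cell_le]
    refine ⟨h.le_top hT F, ?_⟩
    rw [par_top s h hs hT]
    trivial

theorem exists_lift (h : IsPolytope n rk) (hs : Good rk s) (A : Flag (Pow rk s)) :
    ∃ Φ w, A = lift s Φ w := by
  classical
  obtain ⟨T, hT, hT'⟩ := h.greatest
  obtain ⟨B, hB, hB'⟩ := h.least
  have htop : ((cell rk s T 1 : Cell rk s) : Pow rk s) ∈ A := by
    rw [Flag.mem_iff_forall_le_or_ge]
    intro b _
    right
    exact le_cell_top s h hs hT 1 b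
  have hbot : (⊥ : Pow rk s) ∈ A := by
    rw [Flag.mem_iff_forall_le_or_ge]
    intro b _
    left
    exact bot_le
  have hex : ∃ m : ℕ, ∃ F w, ((cell rk s F w : Cell rk s) : Pow rk s) ∈ A ∧ rk F + 1 = m := by
    refine ⟨(rk T + 1).toNat, T, 1, htop, ?_⟩
    have := h.ge T
    rw [Int.toNat_of_nonneg (by omega)]
  obtain ⟨F, w, hF, hFm⟩ := Nat.find_spec hex
  have hmin : ∀ G u, ((cell rk s G u : Cell rk s) : Pow rk s) ∈ A → rk F ≤ rk G := by
    intro G u hG
    have h1 := h.ge G
    have h2 := Nat.find_min' hex ⟨G, u, hG, (Int.toNat_of_nonneg (a := rk G + 1) (by omega)).symm⟩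
    omega
  have hle : ∀ G u, ((cell rk s G u : Cell rk s) : Pow rk s) ∈ A →
      cell rk s F w ≤ cell rk s G u := by
    intro G u hG
    rcases A.le_or_le hF hG with h1 | h1
    · exact WithBot.coe_le_coe.1 h1
    · rw [WithBot.coe_le_coe, cell_le] at h1
      obtain ⟨h1, h2⟩ := h1
      have h3 : G = F := h.eq_of_le h1 (le_antisymm (h.strictMono.monotone h1) (hmin G u hG))
      subst h3
      rw [cell_le]
      refine ⟨le_rfl, ?_⟩
      have := inv_mem h2
      simpa using this
  have hBA : ((cell rk s B w : Cell rk s) : Pow rk s) ∈ A := by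
    rw [Flag.mem_iff_forall_le_or_ge]
    intro b hb
    revert hb
    induction b using pow_cases with
    | h0 => intro _; right; exact bot_le
    | h1 G u =>
      intro hb
      left
      have h1 := hle G u hb
      rw [WithBot.coe_le_coe]
      refine le_trans ?_ h1
      rw [cell_le]
      refine ⟨hB' F, ?_⟩
      simp [one_mem]
  have hFB : B = F := by
    apply h.eq_of_le (hB' F)
    exact le_antisymm (h.strictMono.monotone (hB' F)) (hmin B w hBA)
  subst hFB
  have hmem : ∀ G u, ((cell rk s G u : Cell rk s) : Pow rk s) ∈ A → w⁻¹ * u ∈ par rk s G :=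
    fun G u hG => ((cell_le rk s).1 (hle G u hG)).2
  refine ⟨mkFlag {G | ((cell rk s G w : Cell rk s) : Pow rk s) ∈ A} ?_, w, ?_⟩
  · intro a
    constructor
    · intro ha b hb
      rcases A.le_or_le ha hb with h1 | h1
      · left; exact ((cell_le rk s).1 (WithBot.coe_le_coe.1 h1)).1
      · right; exact ((cell_le rk s).1 (WithBot.coe_le_coe.1 h1)).1
    · intro ha
      change _ ∈ A
      rw [Flag.mem_iff_forall_le_or_ge]
      intro b hb
      revert hb
      induction b using pow_cases with
      | h0 => intro _; right; exact bot_le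
      | h1 G u =>
        intro hb
        have h1 := cell_eq_of_mem s (hmem G u hb)
        rw [← h1] at hb ⊢
        rcases ha G hb with h2 | h2
        · left
          rw [WithBot.coe_le_coe, cell_le]
          exact ⟨h2, by simp [one_mem]⟩
        · right
          rw [WithBot.coe_le_coe, cell_le]
          exact ⟨h2, by simp [one_mem]⟩
  · apply Flag.ext
    ext X
    rw [Flag.mem_coe_iff, Flag.mem_coe_iff]
    induction X using pow_cases with
    | h0 =>
      constructor
      · intro _; exact bot_mem_lift s _ w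
      · intro _; exact hbot
    | h1 G u =>
      rw [cell_mem_lift]
      constructor
      · intro hG
        have h1 := hmem G u hG
        refine ⟨?_, h1⟩
        change _ ∈ A
        rw [cell_eq_of_mem s h1]
        exact hG
      · rintro ⟨h1, h2⟩
        rw [← cell_eq_of_mem s h2]
        exact h1

theorem pow_strictMono (h : IsPolytope n rk) : StrictMono (rkP rk s) := by
  intro X Y hXY
  revert hXY
  induction Y using pow_cases with
  | h0 => intro h1; exact absurd h1 not_lt_bot
  | h1 G u =>
    induction X using pow_cases with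
    | h0 =>
      intro _
      rw [rkP_bot, rkP_cell]
      have := h.ge G
      omega
    | h1 F w =>
      intro h1
      rw [WithBot.coe_lt_coe, cell_lt] at h1
      have := h.strictMono h1.1
      rw [rkP_cell, rkP_cell]
      omega

theorem pow_flag_rank (h : IsPolytope n rk) (hs : Good rk s) (A : Flag (Pow rk s)) (i : ℤ)
    (h1 : -1 ≤ i) (h2 : i ≤ n + 1) : ∃! F, F ∈ A ∧ rkP rk s F = i := by
  obtain ⟨Φ, w, rfl⟩ := exists_lift s h hs A
  rcases h1.lt_or_eq with h1 | h1
  · obtain ⟨F, ⟨hF, hF'⟩, hu⟩ := h.flag_rank Φ (i - 1) (by omega) (by omega)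
    refine ⟨((cell rk s F w : Cell rk s) : Pow rk s), ⟨?_, ?_⟩, ?_⟩
    · rw [cell_mem_lift]
      exact ⟨hF, by simp [one_mem]⟩
    · rw [rkP_cell]; omega
    · intro X
      induction X using pow_cases with
      | h0 =>
        rintro ⟨-, h3⟩
        rw [rkP_bot] at h3
        omega
      | h1 G u =>
        rintro ⟨h3, h4⟩
        rw [cell_mem_lift] at h3
        rw [rkP_cell] at h4
        have h5 : G = F := hu G ⟨h3.1, by omega⟩
        rw [h5] at h3 ⊢
        rw [cell_eq_of_mem s h3.2]
  · refine ⟨⊥, ⟨bot_mem_lift s Φ w, ?_⟩, ?_⟩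
    · rw [rkP_bot]; exact h1
    · intro X
      induction X using pow_cases with
      | h0 => intro _; rfl
      | h1 G u =>
        rintro ⟨h3, h4⟩
        rw [rkP_cell] at h4
        have := h.ge G
        omega

/-- The part of the new polytope above a proper face. -/
theorem above (A B : K) (w : W) (p : ℤ → Prop) :
    {H : Pow rk s | ((cell rk s A w : Cell rk s) : Pow rk s) < H ∧
        H < ((cell rk s B w : Cell rk s) : Pow rk s) ∧ p (rkP rk s H)} =
      (fun C => ((cell rk s C w : Cell rk s) : Pow rk s)) ''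
        {C | A < C ∧ C < B ∧ p (rk C + 1)} := by
  ext H
  induction H using pow_cases with
  | h0 => simp
  | h1 F u =>
    simp only [Set.mem_ofPred_eq, Set.mem_image, WithBot.coe_lt_coe, cell_lt, rkP_cell,
      WithBot.coe_inj, cell_eq]
    constructor
    · rintro ⟨⟨h1, h2⟩, ⟨h3, h4⟩, h5⟩
      exact ⟨F, ⟨h1, h3, h5⟩, rfl, h2⟩
    · rintro ⟨C, ⟨h1, h2, h3⟩, rfl, h4⟩
      refine ⟨⟨h1, h4⟩, ⟨h2, ?_⟩, h3⟩
      have := par_mono rk s h2.le (inv_mem h4)
      simpa using this

theorem cell_injective (w : W) :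
    Function.Injective (fun C => ((cell rk s C w : Cell rk s) : Pow rk s)) := by
  intro C D hCD
  simp only [WithBot.coe_inj, cell_eq] at hCD
  exact hCD.1

theorem pow_diamond (h : IsPolytope n rk) (hs : Good rk s) (F G : Pow rk s) (hFG : F < G)
    (hr : rkP rk s G = rkP rk s F + 2) : {H | F < H ∧ H < G}.ncard = 2 := by
  revert hFG hr
  induction G using pow_cases with
  | h0 => intro h1; exact absurd h1 not_lt_bot
  | h1 B u =>
    induction F using pow_cases with
    | h0 =>
      intro _ hr
      rw [rkP_bot, rkP_cell] at hr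
      have hB : rk B = 0 := by omega
      obtain ⟨O, hO, hO'⟩ := h.least
      have hset : {H : Pow rk s | ⊥ < H ∧ H < ((cell rk s B u : Cell rk s) : Pow rk s)} =
          {((cell rk s O u : Cell rk s) : Pow rk s),
            ((cell rk s O (u * s B) : Cell rk s) : Pow rk s)} := by
        ext H
        induction H using pow_cases with
        | h0 => simp
        | h1 F x =>
          simp only [Set.mem_ofPred_eq, WithBot.coe_lt_coe, cell_lt,
            WithBot.coe_inj, cell_eq, Set.mem_insert_iff, Set.mem_singleton_iff,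
            WithBot.bot_lt_coe, true_and]
          constructor
          · rintro ⟨h1, h2⟩
            have h3 : F = O := by
              refine (h.eq_of_le (hO' F) ?_).symm
              have := h.strictMono h1
              have := h.ge F
              omega
            rw [mem_par_vert s h hs.inv hB] at h2
            rw [par_bot s h (by rw [h3]; exact hO)]
            simp only [Subgroup.mem_bot]
            rcases h2 with h2 | h2
            · left; exact ⟨h3, h2⟩
            · right
              refine ⟨h3, ?_⟩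
              rw [← mul_assoc, h2, hs.inv B hB]
          · have hOB : O < B := lt_of_le_of_ne (hO' B) (by rintro rfl; omega)
            rintro (⟨rfl, h1⟩ | ⟨rfl, h1⟩)
            · exact ⟨hOB, par_mono rk s (hO' B) h1⟩
            · refine ⟨hOB, ?_⟩
              have h2 := mul_mem (par_mono rk s (hO' B) h1) (inv_mem (mem_par_of_le s le_rfl hB))
              simpa [mul_assoc] using h2
      rw [hset]
      apply Set.ncard_pair
      intro hne
      rw [WithBot.coe_inj, cell_eq, par_bot s h hO] at hne
      have := hne.2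
      simp only [inv_mul_cancel_left, Subgroup.mem_bot] at this
      exact hs.ne_one B hB this
    | h1 A w =>
      intro h1 h2
      rw [WithBot.coe_lt_coe, cell_lt] at h1
      rw [← cell_eq_of_mem s h1.2]
      have := above (rk := rk) s A B w (fun _ => True)
      simp only [and_true] at this
      rw [this, Set.ncard_image_of_injective _ (cell_injective s w)]
      apply h.diamond A B h1.1
      rw [rkP_cell, rkP_cell] at h2
      omega

theorem pow_noDigon (h : IsPolytope n rk) (hs : Good rk s) (hd : NoDigon rk) :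
    NoDigon (rkP rk s) := by
  intro F G hFG hr
  revert hFG hr
  induction G using pow_cases with
  | h0 => intro h1; exact absurd h1 not_lt_bot
  | h1 B u =>
    induction F using pow_cases with
    | h0 =>
      intro _ hr hc
      rw [rkP_bot, rkP_cell] at hr
      have hB : rk B = 1 := by omega
      obtain ⟨O, hO, hO'⟩ := h.least
      have hOB : O < B := lt_of_le_of_ne (hO' B) (by rintro rfl; omega)
      have h2 := h.diamond O B hOB (by omega)
      rw [Set.ncard_eq_two] at h2
      obtain ⟨a, b, hab, hset⟩ := h2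
      have ha : O < a ∧ a < B := by
        have : a ∈ {H | O < H ∧ H < B} := by rw [hset]; simp
        exact this
      have hb : O < b ∧ b < B := by
        have : b ∈ {H | O < H ∧ H < B} := by rw [hset]; simp
        exact this
      have hra : rk a = 0 := by
        have := h.strictMono ha.1
        have := h.strictMono ha.2
        omega
      have hrb : rk b = 0 := by
        have := h.strictMono hb.1
        have := h.strictMono hb.2
        omega
      have hne : s a ≠ s b := fun hc => hab (hs.edge B a b hB ha.2.le hb.2.le hra hrb hc)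
      rw [Set.ncard_eq_two] at hc
      obtain ⟨X, Y, -, hXY⟩ := hc
      have hmem : ∀ x, x ∈ par rk s B → ((cell rk s O (u * x) : Cell rk s) : Pow rk s) = X ∨
          ((cell rk s O (u * x) : Cell rk s) : Pow rk s) = Y := by
        intro x hx
        have : ((cell rk s O (u * x) : Cell rk s) : Pow rk s) ∈ ({X, Y} : Set (Pow rk s)) := by
          rw [← hXY]
          simp only [Set.mem_ofPred_eq, WithBot.coe_lt_coe, cell_lt, rkP_cell, rkP_bot,
            WithBot.bot_lt_coe, true_and]
          refine ⟨⟨hOB, ?_⟩, by omega⟩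
          simpa using inv_mem hx
        simpa using this
      have hinj : ∀ x y, ((cell rk s O (u * x) : Cell rk s) : Pow rk s) =
          ((cell rk s O (u * y) : Cell rk s) : Pow rk s) → x = y := by
        intro x y hxy
        rw [WithBot.coe_inj, cell_eq, par_bot s h hO] at hxy
        have := hxy.2
        simp only [mul_inv_rev, Subgroup.mem_bot] at this
        have h3 : x⁻¹ * y = 1 := by
          rw [← this]; group
        exact (inv_mul_eq_one.1 h3)
      have h1 := hmem 1 (one_mem _)
      have h2 := hmem (s a) (mem_par_of_le s ha.2.le hra)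
      have h3 := hmem (s b) (mem_par_of_le s hb.2.le hrb)
      have e1 := hs.ne_one a hra
      have e2 := hs.ne_one b hrb
      rcases h1 with h1 | h1 <;> rcases h2 with h2 | h2 <;> rcases h3 with h3 | h3
      all_goals first
        | exact e1 (hinj _ _ (h2.trans h1.symm))
        | exact e2 (hinj _ _ (h3.trans h1.symm))
        | exact hne (hinj _ _ (h2.trans h3.symm))
    | h1 A w =>
      intro h1 h2
      rw [WithBot.coe_lt_coe, cell_lt] at h1
      rw [← cell_eq_of_mem s h1.2]
      rw [rkP_cell, rkP_cell] at h2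
      rw [above s A B w (fun i => i = rkP rk s ((cell rk s A w : Cell rk s) : Pow rk s) + 1),
        Set.ncard_image_of_injective _ (cell_injective s w)]
      have h3 := hd A B h1.1 (by omega)
      have h4 : {C | A < C ∧ C < B ∧
          rk C + 1 = rkP rk s ((cell rk s A w : Cell rk s) : Pow rk s) + 1} =
          {H | A < H ∧ H < B ∧ rk H = rk A + 1} := by
        ext C
        simp only [Set.mem_ofPred_eq, rkP_cell, add_left_inj]
      rw [h4]
      exact h3

/-- Connectedness of flags through flags containing a given set. -/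
def Conn {P : Type} [PartialOrder P] (S : Set P) (A B : Flag P) : Prop :=
  Relation.ReflTransGen (fun A B => Adj A B ∧ ∀ F ∈ S, F ∈ A ∧ F ∈ B) A B

theorem Adj.symm {P : Type} [PartialOrder P] {A B : Flag P} (h : Adj A B) : Adj B A := by
  obtain ⟨F, hF, G, hG, h1, h2⟩ := h
  exact ⟨G, hG, F, hF, h1.symm, h2.symm⟩

theorem Conn.symm {P : Type} [PartialOrder P] {S : Set P} {A B : Flag P} (h : Conn S A B) :
    Conn S B A := by
  unfold Conn at *
  induction h with
  | refl => exact .refl
  | tail _ h2 ih =>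
    exact Relation.ReflTransGen.head ⟨h2.1.symm, fun F hF => ⟨(h2.2 F hF).2, (h2.2 F hF).1⟩⟩ ih

theorem Conn.trans {P : Type} [PartialOrder P] {S : Set P} {A B C : Flag P} (h : Conn S A B)
    (h' : Conn S B C) : Conn S A C := Relation.ReflTransGen.trans h h'

theorem Conn.mono {P : Type} [PartialOrder P] {S T : Set P} (hST : S ⊆ T) {A B : Flag P}
    (h : Conn T A B) : Conn S A B :=
  Relation.ReflTransGen.mono (fun _ _ h => ⟨h.1, fun F hF => h.2 F (hST hF)⟩) _ _ h

theorem lift_adj {Φ Ψ : Flag K} (h : Adj Φ Ψ) (w : W) :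
    Adj (lift (rk := rk) s Φ w) (lift s Ψ w) := by
  obtain ⟨F, hF, G, hG, h1, h2⟩ := h
  refine ⟨((cell rk s F w : Cell rk s) : Pow rk s), ?_,
    ((cell rk s G w : Cell rk s) : Pow rk s), ?_, ?_, ?_⟩
  · rw [cell_mem_lift]; exact ⟨hF, by simp [one_mem]⟩
  · rw [cell_mem_lift]; exact ⟨hG, by simp [one_mem]⟩
  · intro h3
    rw [WithBot.coe_inj, cell_eq] at h3
    exact h1 h3.1
  · ext X
    induction X using pow_cases with
    | h0 =>
      simp only [Set.mem_sdiff, Set.mem_singleton_iff, Flag.mem_coe_iff]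
      simp [bot_mem_lift]
    | h1 H u =>
      simp only [Set.mem_sdiff, Set.mem_singleton_iff, Flag.mem_coe_iff, cell_mem_lift,
        WithBot.coe_inj, cell_eq]
      have h3 : (H ∈ Φ ∧ H ≠ F) ↔ (H ∈ Ψ ∧ H ≠ G) := by
        have := Set.ext_iff.1 h2 H
        simpa using this
      constructor
      · rintro ⟨⟨h4, h5⟩, h6⟩
        have h7 : H ≠ F := fun h7 => h6 ⟨h7, by simpa using inv_mem h5⟩
        have h8 := h3.1 ⟨h4, h7⟩
        exact ⟨⟨h8.1, h5⟩, fun h9 => h8.2 h9.1⟩
      · rintro ⟨⟨h4, h5⟩, h6⟩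
        have h7 : H ≠ G := fun h7 => h6 ⟨h7, by simpa using inv_mem h5⟩
        have h8 := h3.2 ⟨h4, h7⟩
        exact ⟨⟨h8.1, h5⟩, fun h9 => h8.2 h9.1⟩

theorem conn_of_flag (h : IsPolytope n rk) {Φ Ψ : Flag K} {w : W} {S : Set (Pow rk s)}
    (h1 : ∀ X ∈ S, X ∈ lift s Φ w) (h2 : ∀ X ∈ S, X ∈ lift s Ψ w) :
    Conn S (lift s Φ w) (lift s Ψ w) := by
  have hc := h.connected Φ Ψ
  refine Relation.ReflTransGen.lift (fun A => lift s A w) ?_ _ _ hc
  rintro A B ⟨hAB, hk⟩
  refine ⟨lift_adj s hAB w, ?_⟩
  intro X hX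
  have h3 := h1 X hX
  have h4 := h2 X hX
  revert h3 h4
  clear hX
  induction X using pow_cases with
  | h0 =>
    intro _ _
    exact ⟨bot_mem_lift s _ w, bot_mem_lift s _ w⟩
  | h1 G u =>
    simp only [cell_mem_lift]
    rintro ⟨h3, h4⟩ ⟨h5, -⟩
    exact ⟨⟨(hk G h3 h5).1, h4⟩, ⟨(hk G h3 h5).2, h4⟩⟩

/-- The faces of the flag above `F₀`. -/
def upper (Φ : Flag K) (F₀ : K) (w : W) : Set (Pow rk s) :=
  {X | X = ⊥ ∨ ∃ F ∈ Φ, F₀ ≤ F ∧ X = ((cell rk s F w : Cell rk s) : Pow rk s)}

theorem upper_eq {Φ : Flag K} {F₀ : K} {w u : W} (hu : w⁻¹ * u ∈ par rk s F₀) :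
    upper (rk := rk) s Φ F₀ w = upper s Φ F₀ u := by
  ext X
  constructor
  · rintro (h | ⟨F, h1, h2, rfl⟩)
    · exact Or.inl h
    · exact Or.inr ⟨F, h1, h2, by rw [cell_eq_of_mem s (par_mono rk s h2 hu)]⟩
  · rintro (h | ⟨F, h1, h2, rfl⟩)
    · exact Or.inl h
    · exact Or.inr ⟨F, h1, h2, by rw [cell_eq_of_mem s (par_mono rk s h2 hu)]⟩

theorem flip_adj (h : IsPolytope n rk) (hs : Good rk s) {Φ : Flag K} {v : K} (hv : v ∈ Φ)
    (hv0 : rk v = 0) (w : W) :
    Adj (lift (rk := rk) s Φ w) (lift s Φ (w * s v)) := by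
  obtain ⟨O, ⟨hO, hO'⟩, -⟩ := h.flag_rank Φ (-1) (by omega) (by have := h.le v; omega)
  have hle : ∀ F ∈ Φ, F ≠ O → v ≤ F := by
    intro F hF hFO
    apply h.le_of_mem hv hF
    by_contra hlt
    have h1 := h.ge F
    have h2 : rk F = -1 := by omega
    apply hFO
    exact (h.eq_of_le (h.bot_le hO' F) (by omega)).symm
  refine ⟨((cell rk s O w : Cell rk s) : Pow rk s), ?_,
    ((cell rk s O (w * s v) : Cell rk s) : Pow rk s), ?_, ?_, ?_⟩
  · rw [cell_mem_lift]; exact ⟨hO, by simp [one_mem]⟩
  · rw [cell_mem_lift]; exact ⟨hO, by simp [one_mem]⟩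
  · intro h3
    rw [WithBot.coe_inj, cell_eq, par_bot s h hO'] at h3
    have := h3.2
    simp only [inv_mul_cancel_left, Subgroup.mem_bot] at this
    exact hs.ne_one v hv0 this
  · ext X
    induction X using pow_cases with
    | h0 =>
      simp only [Set.mem_sdiff, Set.mem_singleton_iff, Flag.mem_coe_iff]
      simp [bot_mem_lift]
    | h1 H u =>
      simp only [Set.mem_sdiff, Set.mem_singleton_iff, Flag.mem_coe_iff, cell_mem_lift,
        WithBot.coe_inj, cell_eq]
      constructor
      · rintro ⟨⟨h4, h5⟩, h6⟩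
        have h7 : H ≠ O := fun h7 => h6 ⟨h7, by simpa using inv_mem h5⟩
        have h8 := mem_par_of_le s (hle H h4 h7) hv0
        refine ⟨⟨h4, ?_⟩, fun h9 => h7 h9.1⟩
        have := mul_mem (inv_mem h8) h5
        simpa [mul_assoc] using this
      · rintro ⟨⟨h4, h5⟩, h6⟩
        have h7 : H ≠ O := fun h7 => h6 ⟨h7, by simpa using inv_mem h5⟩
        have h8 := mem_par_of_le s (hle H h4 h7) hv0
        refine ⟨⟨h4, ?_⟩, fun h9 => h7 h9.1⟩
        have := mul_mem h8 h5
        simpa [mul_assoc] using this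

theorem conn_flip (h : IsPolytope n rk) (hs : Good rk s) {Φ : Flag K} {F₀ v : K}
    (hv0 : rk v = 0) (hv : v ≤ F₀) (w : W) :
    Conn (upper (rk := rk) s Φ F₀ w) (lift s Φ w) (lift s Φ (w * s v)) := by
  -- a flag through `v` and the faces of `Φ` above `F₀`
  have hch : IsChain (· ≤ ·) (insert v {F | F ∈ Φ ∧ F₀ ≤ F}) := by
    apply IsChain.insert
    · intro a ha b hb hab
      exact Φ.le_or_le ha.1 hb.1
    · intro b hb _
      left
      exact hv.trans hb.2
  obtain ⟨Φ', hΦ'⟩ := hch.exists_subset_flag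
  have h1 : v ∈ Φ' := hΦ' (Set.mem_insert _ _)
  have h2 : ∀ F ∈ Φ, F₀ ≤ F → F ∈ Φ' := fun F hF hF' => hΦ' (Set.mem_insert_of_mem _ ⟨hF, hF'⟩)
  have hu : w⁻¹ * (w * s v) ∈ par rk s F₀ := by
    rw [inv_mul_cancel_left]
    exact mem_par_of_le s hv hv0
  have key : ∀ (x : W) (Ψ : Flag K), (∀ F ∈ Φ, F₀ ≤ F → F ∈ Ψ) →
      ∀ X ∈ upper (rk := rk) s Φ F₀ x, X ∈ lift s Ψ x := by
    rintro x Ψ hΨ X (rfl | ⟨F, h1, h2, rfl⟩)
    · exact bot_mem_lift s Ψ x
    · rw [cell_mem_lift]
      exact ⟨hΨ F h1 h2, by simp [one_mem]⟩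
  have s1 : Conn (upper (rk := rk) s Φ F₀ w) (lift s Φ w) (lift s Φ' w) :=
    conn_of_flag s h (key w Φ (fun F hF _ => hF)) (key w Φ' h2)
  have s2 : Conn (upper (rk := rk) s Φ F₀ w) (lift s Φ' w) (lift s Φ' (w * s v)) := by
    refine Relation.ReflTransGen.single ⟨flip_adj s h hs h1 hv0 w, ?_⟩
    intro X hX
    refine ⟨key w Φ' h2 X hX, ?_⟩
    rw [upper_eq s hu] at hX
    exact key _ Φ' h2 X hX
  have s3 : Conn (upper (rk := rk) s Φ F₀ w) (lift s Φ' (w * s v)) (lift s Φ (w * s v)) := by
    rw [upper_eq s hu]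
    exact (conn_of_flag s h (key _ Φ (fun F hF _ => hF)) (key _ Φ' h2)).symm
  exact (s1.trans s2).trans s3

theorem conn_par (h : IsPolytope n rk) (hs : Good rk s) {Φ : Flag K} {F₀ : K} {g : W}
    (hg : g ∈ par rk s F₀) : ∀ w : W,
    Conn (upper (rk := rk) s Φ F₀ w) (lift s Φ w) (lift s Φ (w * g)) := by
  induction hg using Subgroup.closure_induction with
  | mem x hx =>
    obtain ⟨v, ⟨hv1, hv2⟩, rfl⟩ := hx
    intro w
    exact conn_flip s h hs hv2 hv1 w
  | one =>
    intro w
    rw [mul_one]
    exact .refl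
  | mul x y hx hy ihx ihy =>
    intro w
    have h1 := ihx w
    have h2 := ihy (w * x)
    rw [← upper_eq s (w := w) (u := w * x) (by rw [inv_mul_cancel_left]; exact hx)] at h2
    rw [← mul_assoc]
    exact h1.trans h2
  | inv x hx ih =>
    intro w
    have h1 := ih (w * x⁻¹)
    rw [← upper_eq s (w := w) (u := w * x⁻¹)
      (by rw [inv_mul_cancel_left]; exact inv_mem hx), inv_mul_cancel_right] at h1
    exact h1.symm

theorem pow_connected (h : IsPolytope n rk) (hs : Good rk s) (A B : Flag (Pow rk s)) :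
    Relation.ReflTransGen (fun C D => Adj C D ∧ ∀ F ∈ A, F ∈ B → F ∈ C ∧ F ∈ D) A B := by
  classical
  obtain ⟨Φ, w, rfl⟩ := exists_lift s h hs A
  obtain ⟨Ψ, u, rfl⟩ := exists_lift s h hs B
  obtain ⟨T, hT, hT'⟩ := h.greatest
  have hex : ∃ m : ℕ, ∃ F, (F ∈ Φ ∧ F ∈ Ψ ∧ w⁻¹ * u ∈ par rk s F) ∧ rk F + 1 = m := by
    refine ⟨(rk T + 1).toNat, T, ⟨?_, ?_, ?_⟩, ?_⟩
    · rw [Flag.mem_iff_forall_le_or_ge]; intro b _; exact Or.inr (hT' b)
    · rw [Flag.mem_iff_forall_le_or_ge]; intro b _; exact Or.inr (hT' b)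
    · rw [par_top s h hs hT]; trivial
    · have := h.ge T
      rw [Int.toNat_of_nonneg (by omega)]
  obtain ⟨F₀, ⟨hF1, hF2, hF3⟩, hFm⟩ := Nat.find_spec hex
  have hmin : ∀ G, G ∈ Φ → G ∈ Ψ → w⁻¹ * u ∈ par rk s G → F₀ ≤ G := by
    intro G h1 h2 h3
    have h4 := h.ge G
    have h5 := Nat.find_min' hex
      ⟨G, ⟨h1, h2, h3⟩, (Int.toNat_of_nonneg (a := rk G + 1) (by omega)).symm⟩
    exact h.le_of_mem hF1 h1 (by omega)
  set S : Set (Pow rk s) := {X | X ∈ lift s Φ w ∧ X ∈ lift s Ψ u} with hS
  have hSu : S ⊆ upper s Φ F₀ w := by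
    rintro X ⟨h1, h2⟩
    revert h1 h2
    induction X using pow_cases with
    | h0 => intro _ _; exact Or.inl rfl
    | h1 G x =>
      simp only [cell_mem_lift]
      rintro ⟨h1, h2⟩ ⟨h3, h4⟩
      refine Or.inr ⟨G, h1, ?_, ?_⟩
      · apply hmin G h1 h3
        have := mul_mem h2 (inv_mem h4)
        simpa using this
      · rw [cell_eq_of_mem s h2]
  have s1 : Conn S (lift s Φ w) (lift s Φ u) := by
    have := (conn_par s h hs hF3 (Φ := Φ) w).mono hSu
    simpa using this
  have s2 : Conn S (lift s Φ u) (lift s Ψ u) := by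
    apply conn_of_flag s h
    · intro X hX
      have hX' := hSu hX
      rw [upper_eq s hF3] at hX'
      rcases hX' with rfl | ⟨F, h1, h2, rfl⟩
      · exact bot_mem_lift s _ _
      · rw [cell_mem_lift]
        exact ⟨h1, by simp [one_mem]⟩
    · intro X hX
      exact hX.2
  have s3 := s1.trans s2
  exact Relation.ReflTransGen.mono
    (fun C D hCD => ⟨hCD.1, fun F hF hF' => hCD.2 F ⟨hF, hF'⟩⟩) _ _ s3

/-- The construction produces polytopes. -/
theorem pow_isPolytope (h : IsPolytope n rk) (hs : Good rk s) :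
    IsPolytope (n + 1) (rkP rk s) where
  strictMono := pow_strictMono s h
  least := ⟨⊥, rfl, fun _ => bot_le⟩
  greatest := by
    obtain ⟨T, hT, hT'⟩ := h.greatest
    refine ⟨((cell rk s T 1 : Cell rk s) : Pow rk s), ?_, le_cell_top s h hs hT 1⟩
    rw [rkP_cell, hT]
  flag_rank := fun A i h1 h2 => pow_flag_rank s h hs A i h1 h2
  connected := pow_connected s h hs
  diamond := pow_diamond s h hs

theorem map_eq_of_forall {P Q : Type} [PartialOrder P] [PartialOrder Q] (g : P ≃o Q)
    (A : Flag P) (B : Flag Q) (h : ∀ X ∈ A, g X ∈ B) : Flag.map g A = B := by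
  apply Flag.ext
  apply (Flag.map g A).max_chain' B.Chain'
  intro Y hY
  change Y ∈ ((Flag.map g A : Flag Q) : Set Q) at hY
  rw [Flag.coe_map] at hY
  obtain ⟨X, hX, rfl⟩ := hY
  exact h X hX

theorem mem_map {P Q : Type} [PartialOrder P] [PartialOrder Q] (g : P ≃o Q)
    (A : Flag P) {X : P} (h : X ∈ A) : g X ∈ Flag.map g A := by
  rw [← Flag.mem_coe_iff, Flag.coe_map]
  exact ⟨X, h, rfl⟩

/-- Flags of `K` related by an automorphism that preserves the relation `s v = s v'`. -/
def Rel (rk : K → ℤ) (s : K → W) (Φ Ψ : Flag K) : Prop :=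
  ∃ g : K ≃o K, (∀ v v', rk v = 0 → rk v' = 0 → (s v = s v' ↔ s (g v) = s (g v'))) ∧
    Flag.map g Φ = Ψ

theorem other_iff (h : IsPolytope n rk) (hs : Good rk s) {O : K} (hO : rk O = -1) (w : W)
    {v v' : K} (hv : rk v = 0) (hv' : rk v' = 0) :
    s v = s v' ↔ ∃ X : Pow rk s, rkP rk s X = 0 ∧ X ≠ ((cell rk s O w : Cell rk s) : Pow rk s) ∧
      X < ((cell rk s v w : Cell rk s) : Pow rk s) ∧
      X < ((cell rk s v' w : Cell rk s) : Pow rk s) := by
  constructor
  · intro he
    refine ⟨((cell rk s O (w * s v) : Cell rk s) : Pow rk s), ?_, ?_, ?_, ?_⟩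
    · rw [rkP_cell, hO]; rfl
    · intro h1
      rw [WithBot.coe_inj, cell_eq, par_bot s h hO] at h1
      have h2 := h1.2
      simp only [mul_inv_rev, Subgroup.mem_bot] at h2
      have h3 : (s v)⁻¹ = 1 := by rw [← h2]; group
      exact hs.ne_one v hv (inv_eq_one.1 h3)
    · rw [WithBot.coe_lt_coe, cell_lt]
      refine ⟨lt_of_le_of_ne (h.bot_le hO v) (by rintro rfl; omega), ?_⟩
      have := inv_mem (mem_par_of_le s (le_refl v) hv)
      simpa [mul_assoc] using this
    · rw [WithBot.coe_lt_coe, cell_lt, he]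
      refine ⟨lt_of_le_of_ne (h.bot_le hO v') (by rintro rfl; omega), ?_⟩
      have := inv_mem (mem_par_of_le s (le_refl v') hv')
      simpa [mul_assoc] using this
  · rintro ⟨X, h1, h2, h3, h4⟩
    revert h1 h2 h3 h4
    induction X using pow_cases with
    | h0 => intro h1; rw [rkP_bot] at h1; omega
    | h1 F x =>
      intro h1 h2 h3 h4
      rw [rkP_cell] at h1
      have hF : O = F := h.eq_of_le (h.bot_le hO F) (by omega)
      subst hF
      rw [WithBot.coe_lt_coe, cell_lt, mem_par_vert s h hs.inv hv] at h3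
      rw [WithBot.coe_lt_coe, cell_lt, mem_par_vert s h hs.inv hv'] at h4
      have h5 : x⁻¹ * w ≠ 1 := by
        intro h5
        apply h2
        rw [WithBot.coe_inj, cell_eq, h5]
        exact ⟨rfl, one_mem _⟩
      have h6 := h3.2.resolve_left h5
      have h7 := h4.2.resolve_left h5
      rw [← h6, ← h7]

theorem descend_aux (h : IsPolytope n rk) {O : K} (hO : rk O = -1)
    {w u : W} (g : Pow rk s ≃o Pow rk s)
    (hg : g ((cell rk s O w : Cell rk s) : Pow rk s) = ((cell rk s O u : Cell rk s) : Pow rk s))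
    (F : K) : ∃ G, g ((cell rk s F w : Cell rk s) : Pow rk s) =
      ((cell rk s G u : Cell rk s) : Pow rk s) := by
  have h1 : ((cell rk s O w : Cell rk s) : Pow rk s) ≤ ((cell rk s F w : Cell rk s) : Pow rk s) := by
    rw [WithBot.coe_le_coe, cell_le]
    exact ⟨h.bot_le hO F, by simp [one_mem]⟩
  have h2 := g.monotone h1
  rw [hg] at h2
  revert h2
  generalize g ((cell rk s F w : Cell rk s) : Pow rk s) = Y
  induction Y using pow_cases with
  | h0 =>
    intro h2
    exact absurd (le_bot_iff.1 h2) WithBot.coe_ne_bot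
  | h1 G x =>
    intro h2
    rw [WithBot.coe_le_coe, cell_le] at h2
    exact ⟨G, by rw [cell_eq_of_mem s h2.2]⟩

theorem descend (h : IsPolytope n rk) (hs : Good rk s) {Φ Ψ : Flag K} {w u : W}
    (g : Pow rk s ≃o Pow rk s) (hg : Flag.map g (lift s Φ w) = lift s Ψ u) : Rel rk s Φ Ψ := by
  have hP := pow_isPolytope s h hs
  obtain ⟨O, hO, hO'⟩ := h.least
  have hOΦ : O ∈ Φ := by
    rw [Flag.mem_iff_forall_le_or_ge]; intro b _; exact Or.inl (hO' b)
  have hg0 : g ((cell rk s O w : Cell rk s) : Pow rk s) =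
      ((cell rk s O u : Cell rk s) : Pow rk s) := by
    have h1 : ((cell rk s O w : Cell rk s) : Pow rk s) ∈ lift s Φ w := by
      rw [cell_mem_lift]; exact ⟨hOΦ, by simp [one_mem]⟩
    have h2 := mem_map g _ h1
    rw [hg] at h2
    have h3 := hP.rk_map g ((cell rk s O w : Cell rk s) : Pow rk s)
    revert h2 h3
    generalize g ((cell rk s O w : Cell rk s) : Pow rk s) = Y
    induction Y using pow_cases with
    | h0 =>
      intro _ h3
      rw [rkP_cell, rkP_bot] at h3
      omega
    | h1 G x =>
      intro h2 h3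
      rw [rkP_cell, rkP_cell] at h3
      rw [cell_mem_lift] at h2
      have h4 : O = G := h.eq_of_le (hO' G) (by omega)
      subst h4
      rw [cell_eq_of_mem s h2.2]
  have hg0' : g.symm ((cell rk s O u : Cell rk s) : Pow rk s) =
      ((cell rk s O w : Cell rk s) : Pow rk s) := by
    rw [← hg0, OrderIso.symm_apply_apply]
  choose γ hγ using descend_aux s h hO g hg0
  choose γ' hγ' using descend_aux s h hO g.symm hg0'
  have hl : ∀ F, γ' (γ F) = F := by
    intro F
    have h1 := hγ' (γ F)
    rw [← hγ F, OrderIso.symm_apply_apply, WithBot.coe_inj, cell_eq] at h1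
    exact h1.1.symm
  have hr : ∀ F, γ (γ' F) = F := by
    intro F
    have h1 := hγ (γ' F)
    rw [← hγ' F, OrderIso.apply_symm_apply, WithBot.coe_inj, cell_eq] at h1
    exact h1.1.symm
  have hle : ∀ F G, γ F ≤ γ G ↔ F ≤ G := by
    intro F G
    have h1 : g ((cell rk s F w : Cell rk s) : Pow rk s) ≤
      g ((cell rk s G w : Cell rk s) : Pow rk s) ↔ _ := g.le_iff_le
    rw [hγ, hγ, WithBot.coe_le_coe, WithBot.coe_le_coe, cell_le, cell_le] at h1
    simpa [one_mem] using h1
  let γe : K ≃o K :=
    { toFun := γ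
      invFun := γ'
      left_inv := hl
      right_inv := hr
      map_rel_iff' := by intro F G; exact hle F G }
  have hγe : ∀ F, γe F = γ F := fun _ => rfl
  refine ⟨γe, ?_, ?_⟩
  · intro v v' hv hv'
    have hv1 : rk (γ v) = 0 := by rw [← hγe, h.rk_map, hv]
    have hv1' : rk (γ v') = 0 := by rw [← hγe, h.rk_map, hv']
    rw [hγe, hγe, other_iff s h hs hO w hv hv', other_iff s h hs hO u hv1 hv1']
    constructor
    · rintro ⟨X, h1, h2, h3, h4⟩
      refine ⟨g X, ?_, ?_, ?_, ?_⟩
      · rw [hP.rk_map, h1]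
      · rw [← hg0]
        exact fun h5 => h2 (g.injective h5)
      · rw [← hγ v]; exact g.strictMono h3
      · rw [← hγ v']; exact g.strictMono h4
    · rintro ⟨X, h1, h2, h3, h4⟩
      refine ⟨g.symm X, ?_, ?_, ?_, ?_⟩
      · rw [hP.rk_map, h1]
      · rw [← hg0']
        exact fun h5 => h2 (g.symm.injective h5)
      · have := g.symm.strictMono h3
        rwa [← hγ v, OrderIso.symm_apply_apply] at this
      · have := g.symm.strictMono h4
        rwa [← hγ v', OrderIso.symm_apply_apply] at this
  · apply map_eq_of_forall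
    intro F hF
    rw [hγe]
    have h1 : ((cell rk s F w : Cell rk s) : Pow rk s) ∈ lift s Φ w := by
      rw [cell_mem_lift]; exact ⟨hF, by simp [one_mem]⟩
    have h2 := mem_map g _ h1
    rw [hg, hγ, cell_mem_lift] at h2
    exact h2.1

/-! ### Automorphisms of the new polytope -/

theorem mem_par_map (h : IsPolytope n rk) (γ : K ≃o K) (α : W ≃* W)
    (hα : ∀ v, rk v = 0 → α (s v) = s (γ v)) (F : K) (x : W) :
    α x ∈ par rk s (γ F) ↔ x ∈ par rk s F := by
  have h1 : par rk s (γ F) = (par rk s F).map α.toMonoidHom := by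
    rw [par, par, MonoidHom.map_closure]
    congr 1
    ext y
    constructor
    · rintro ⟨v, ⟨h1, h2⟩, rfl⟩
      have h3 : rk (γ.symm v) = 0 := by rw [h.rk_map, h2]
      refine ⟨s (γ.symm v), ⟨γ.symm v, ⟨?_, h3⟩, rfl⟩, ?_⟩
      · rw [← γ.symm_apply_apply F]
        exact γ.symm.monotone h1
      · change α _ = _
        rw [hα _ h3, OrderIso.apply_symm_apply]
    · rintro ⟨_, ⟨v, ⟨h1, h2⟩, rfl⟩, rfl⟩
      refine ⟨γ v, ⟨γ.monotone h1, by rw [h.rk_map, h2]⟩, ?_⟩
      exact (hα v h2).symm
  rw [h1]
  constructor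
  · rintro ⟨y, hy, hxy⟩
    have : y = x := α.injective hxy
    rwa [← this]
  · intro hx
    exact ⟨x, hx, rfl⟩

/-- The map on faces induced by automorphisms of `K` and `W` and a left translation. -/
noncomputable def cmap (γ : K ≃o K) (α : W ≃* W) (x : W) (X : Cell rk s) : Cell rk s :=
  cell rk s (γ X.1.1) (x * α X.2.choose)

theorem cmap_cell (h : IsPolytope n rk) (γ : K ≃o K) (α : W ≃* W)
    (hα : ∀ v, rk v = 0 → α (s v) = s (γ v)) (x : W) (F : K) (w : W) :
    cmap s γ α x (cell rk s F w) = cell rk s (γ F) (x * α w) := by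
  have h1 : (cell rk s F w).2.choose ∈ cos rk s F w := by
    have h2 : cos rk s F w = cos rk s F (cell rk s F w).2.choose :=
      (cell rk s F w).2.choose_spec
    have h3 := mem_cos_self rk s F (cell rk s F w).2.choose
    exact (Set.ext_iff.1 h2 _).2 h3
  change cell rk s (γ F) (x * α (cell rk s F w).2.choose) = _
  symm
  apply cell_eq_of_mem
  have h3 : (x * α w)⁻¹ * (x * α (cell rk s F w).2.choose) =
      α (w⁻¹ * (cell rk s F w).2.choose) := by
    rw [map_mul, map_inv]; group
  rw [h3, mem_par_map s h γ α hα]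
  exact h1

/-- The automorphism induced by automorphisms of `K` and `W` and a left translation. -/
noncomputable def pAut (h : IsPolytope n rk) (γ : K ≃o K) (α : W ≃* W)
    (hα : ∀ v, rk v = 0 → α (s v) = s (γ v)) (x : W) : Pow rk s ≃o Pow rk s :=
  OrderIso.withBotCongr (RelIso.ofSurjective
    (OrderEmbedding.ofMapLEIff (cmap s γ α x) (by
      intro X Y
      obtain ⟨F, w, rfl⟩ := exists_cell rk s X
      obtain ⟨G, u, rfl⟩ := exists_cell rk s Y
      rw [cmap_cell s h γ α hα, cmap_cell s h γ α hα, cell_le, cell_le, γ.le_iff_le]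
      have h3 : (x * α w)⁻¹ * (x * α u) = α (w⁻¹ * u) := by
        rw [map_mul, map_inv]; group
      rw [h3, mem_par_map s h γ α hα]))
    (by
      intro Y
      obtain ⟨G, u, rfl⟩ := exists_cell rk s Y
      refine ⟨cell rk s (γ.symm G) (α.symm (x⁻¹ * u)), ?_⟩
      change cmap s γ α x _ = _
      rw [cmap_cell s h γ α hα]
      simp))

theorem pAut_cell (h : IsPolytope n rk) (γ : K ≃o K) (α : W ≃* W)
    (hα : ∀ v, rk v = 0 → α (s v) = s (γ v)) (x : W) (F : K) (w : W) :
    pAut s h γ α hα x ((cell rk s F w : Cell rk s) : Pow rk s) =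
      ((cell rk s (γ F) (x * α w) : Cell rk s) : Pow rk s) := by
  rw [← cmap_cell s h γ α hα]
  rfl

theorem map_pAut (h : IsPolytope n rk) (γ : K ≃o K) (α : W ≃* W)
    (hα : ∀ v, rk v = 0 → α (s v) = s (γ v)) (x : W) (Φ : Flag K) (w : W) :
    Flag.map (pAut s h γ α hα x) (lift s Φ w) = lift s (Flag.map γ Φ) (x * α w) := by
  apply map_eq_of_forall
  intro X
  induction X using pow_cases with
  | h0 =>
    intro _
    rw [map_bot]
    exact bot_mem_lift s _ _
  | h1 F u =>
    intro hX
    rw [cell_mem_lift] at hX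
    rw [pAut_cell, cell_mem_lift]
    refine ⟨mem_map γ Φ hX.1, ?_⟩
    have h3 : (x * α w)⁻¹ * (x * α u) = α (w⁻¹ * u) := by
      rw [map_mul, map_inv]; group
    rw [h3, mem_par_map s h γ α hα]
    exact hX.2

/-- Flags in the same orbit. -/
def AutRel (P : Type) [PartialOrder P] (Φ Ψ : Flag P) : Prop :=
  ∃ g : P ≃o P, Flag.map g Φ = Ψ

theorem autRel_equivalence (P : Type) [PartialOrder P] : Equivalence (AutRel P) where
  refl Φ := ⟨OrderIso.refl P, map_eq_of_forall _ _ _ (fun _ h => h)⟩
  symm := by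
    rintro Φ Ψ ⟨g, rfl⟩
    refine ⟨g.symm, ?_⟩
    rw [← Flag.symm_map, Equiv.symm_apply_apply]
  trans := by
    rintro Φ Ψ Θ ⟨g, rfl⟩ ⟨g', rfl⟩
    refine ⟨g.trans g', map_eq_of_forall _ _ _ (fun X hX => ?_)⟩
    exact mem_map g' _ (mem_map g _ hX)

theorem orbits_pow (h : IsPolytope n rk) (hs : Good rk s)
    (hl : ∀ g : K ≃o K,
      (∀ v v', rk v = 0 → rk v' = 0 → (s v = s v' ↔ s (g v) = s (g v'))) →
      ∃ α : W ≃* W, ∀ v, rk v = 0 → α (s v) = s (g v)) :
    flagOrbits (Pow rk s) = Nat.card (Quot (Rel rk s)) := by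
  symm
  apply Nat.card_congr
  refine Equiv.ofBijective
    (Quot.map (fun Φ => lift s Φ 1) ?_ : Quot (Rel rk s) → Quot (AutRel (Pow rk s))) ⟨?_, ?_⟩
  · rintro Φ Ψ ⟨g, hg, rfl⟩
    obtain ⟨α, hα⟩ := hl g hg
    refine ⟨pAut s h g α hα 1, ?_⟩
    rw [map_pAut]
    simp
  · rintro ⟨Φ⟩ ⟨Ψ⟩ hΦΨ
    change Quot.mk _ _ = Quot.mk _ _ at hΦΨ
    rw [Quot.eq, (autRel_equivalence _).eqvGen_iff] at hΦΨ
    obtain ⟨g, hg⟩ := hΦΨ
    exact Quot.sound (descend s h hs g hg)
  · rintro ⟨A⟩
    obtain ⟨Φ, w, rfl⟩ := exists_lift s h hs A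
    refine ⟨Quot.mk _ Φ, ?_⟩
    apply Quot.sound
    have hα : ∀ v, rk v = 0 → MulEquiv.refl W (s v) = s (OrderIso.refl K v) := fun _ _ => rfl
    have h1 := map_pAut s h (OrderIso.refl K) (MulEquiv.refl W) hα w Φ 1
    have h2 : Flag.map (OrderIso.refl K) Φ = Φ := map_eq_of_forall _ _ _ (fun _ h => h)
    rw [h2, map_one, mul_one] at h1
    exact ⟨_, h1⟩

end construction

theorem rel_equivalence {K : Type} [PartialOrder K] {rk : K → ℤ} {n : ℤ} {W : Type} [Group W]
    (s : K → W) (h : IsPolytope n rk) : Equivalence (Rel rk s) where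
  refl Φ := ⟨OrderIso.refl K, fun _ _ _ _ => Iff.rfl, map_eq_of_forall _ _ _ (fun _ h => h)⟩
  symm := by
    rintro Φ Ψ ⟨g, hg, rfl⟩
    refine ⟨g.symm, ?_, ?_⟩
    · intro v v' hv hv'
      have := hg (g.symm v) (g.symm v') (by rw [h.rk_map, hv]) (by rw [h.rk_map, hv'])
      rw [OrderIso.apply_symm_apply, OrderIso.apply_symm_apply] at this
      exact this.symm
    · rw [← Flag.symm_map, Equiv.symm_apply_apply]
  trans := by
    rintro Φ Ψ Θ ⟨g, hg, rfl⟩ ⟨g', hg', rfl⟩
    refine ⟨g.trans g', ?_, map_eq_of_forall _ _ _ (fun X hX => ?_)⟩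
    · intro v v' hv hv'
      rw [hg v v' hv hv', hg' (g v) (g v') (by rw [h.rk_map, hv]) (by rw [h.rk_map, hv'])]
      rfl
    · exact mem_map g' _ (mem_map g _ hX)

/-! ### Elementary abelian groups given by a colouring of the vertices -/

section coloured

variable {K : Type} [PartialOrder K] {rk : K → ℤ} {n : ℤ}

/-- The vertices. -/
abbrev Vert (rk : K → ℤ) : Type := {v : K // rk v = 0}

variable (r : Setoid (Vert rk))

/-- The elementary abelian `2`-group with basis the colours. -/
abbrev Wg : Type := Multiplicative (Quotient r →₀ ZMod 2)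

open Classical in
/-- The involution attached to a vertex. -/
noncomputable def sg (v : K) : Wg r :=
  if h : rk v = 0 then Multiplicative.ofAdd (Finsupp.single (Quotient.mk r ⟨v, h⟩) 1) else 1

omit [PartialOrder K] in
theorem sg_vert {v : K} (hv : rk v = 0) :
    sg r v = Multiplicative.ofAdd (Finsupp.single (Quotient.mk r ⟨v, hv⟩) 1) := by
  rw [sg, dif_pos hv]

omit [PartialOrder K] in
theorem sg_eq_iff {v v' : K} (hv : rk v = 0) (hv' : rk v' = 0) :
    sg r v = sg r v' ↔ r ⟨v, hv⟩ ⟨v', hv'⟩ := by
  rw [sg_vert r hv, sg_vert r hv', Multiplicative.ofAdd.injective.eq_iff,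
    Finsupp.single_left_inj one_ne_zero]
  exact Quotient.eq

theorem sg_good (hedge : ∀ (E a b : K) (ha : rk a = 0) (hb : rk b = 0), rk E = 1 → a ≤ E →
    b ≤ E → r ⟨a, ha⟩ ⟨b, hb⟩ → a = b) : Good rk (sg r) where
  inv := by
    intro v hv
    rw [sg_vert r hv, ← ofAdd_add, ← Finsupp.single_add]
    have : (1 : ZMod 2) + 1 = 0 := by decide
    rw [this, Finsupp.single_zero, ofAdd_zero]
  ne_one := by
    intro v hv h1
    rw [sg_vert r hv, ofAdd_eq_one, Finsupp.single_eq_zero] at h1
    exact one_ne_zero h1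
  gen := by
    rw [eq_top_iff]
    rintro x -
    induction x using Multiplicative.rec with
    | ofAdd f =>
      induction f using Finsupp.induction_linear with
      | zero => exact one_mem _
      | add f g hf hg => rw [ofAdd_add]; exact mul_mem hf hg
      | single i b =>
        induction i using Quotient.inductionOn with
        | h v =>
          have hb : b = 0 ∨ b = 1 := by revert b; decide
          rcases hb with rfl | rfl
          · rw [Finsupp.single_zero]; exact one_mem _
          · apply Subgroup.subset_closure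
            exact ⟨v.1, v.2, sg_vert r v.2⟩
  edge := by
    intro E a b hE ha hb ha0 hb0 hab
    rw [sg_eq_iff r ha0 hb0] at hab
    exact hedge E a b ha0 hb0 hE ha hb hab

theorem sg_lift (h : IsPolytope n rk) (g : K ≃o K)
    (hg : ∀ v v', rk v = 0 → rk v' = 0 → (sg r v = sg r v' ↔ sg r (g v) = sg r (g v'))) :
    ∃ α : Wg r ≃* Wg r, ∀ v, rk v = 0 → α (sg r v) = sg r (g v) := by
  let e : Vert rk ≃ Vert rk := g.toEquiv.subtypeEquiv (fun v => by
    change rk v = 0 ↔ rk (g v) = 0
    rw [h.rk_map])
  have he : ∀ v : Vert rk, (e v).1 = g v.1 := fun _ => rfl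
  let σ : Quotient r ≃ Quotient r := Quotient.congr e (by
    intro a b
    have h1 := hg a.1 b.1 a.2 b.2
    rw [sg_eq_iff r a.2 b.2, sg_eq_iff r (by rw [h.rk_map, a.2]) (by rw [h.rk_map, b.2])] at h1
    exact h1)
  refine ⟨AddEquiv.toMultiplicative (Finsupp.domCongr σ), ?_⟩
  intro v hv
  have hv' : rk (g v) = 0 := by rw [h.rk_map, hv]
  rw [sg_vert r hv, sg_vert r hv']
  change Multiplicative.ofAdd (Finsupp.domCongr σ (Finsupp.single _ _)) = _
  rw [Finsupp.domCongr_apply, Finsupp.equivMapDomain_single]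
  rfl

theorem orbits_sg (h : IsPolytope n rk) (hedge : ∀ (E a b : K) (ha : rk a = 0) (hb : rk b = 0),
    rk E = 1 → a ≤ E → b ≤ E → r ⟨a, ha⟩ ⟨b, hb⟩ → a = b) :
    flagOrbits (Pow rk (sg r)) = Nat.card (Quot (Rel rk (sg r))) :=
  orbits_pow (sg r) h (sg_good r hedge) (sg_lift r h)

theorem finite_pow [Finite K] : Finite (Pow rk (sg r)) := by
  have h1 : Finite (Quotient r →₀ ZMod 2) :=
    Finite.of_injective (fun f : Quotient r →₀ ZMod 2 => (f : Quotient r → ZMod 2))
      DFunLike.coe_injective
  have h2 : Finite (Wg r) := inferInstanceAs (Finite (Quotient r →₀ ZMod 2))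
  have h3 : Finite (Cell rk (sg r)) :=
    inferInstanceAs (Finite {X : K × Set (Wg r) // ∃ w, X.2 = cos rk (sg r) X.1 w})
  infer_instance

/-- The rank can be raised without changing the number of orbits. -/
theorem exists_step [Finite K] (h : IsPolytope n rk) (hd : NoDigon rk) :
    ∃ (P : Type) (_ : PartialOrder P) (rk' : P → ℤ), Finite P ∧ IsPolytope (n + 1) rk' ∧
      flagOrbits P = flagOrbits K ∧ NoDigon rk' := by
  have hedge : ∀ (E a b : K) (ha : rk a = 0) (hb : rk b = 0), rk E = 1 → a ≤ E →
      b ≤ E → (⊥ : Setoid (Vert rk)) ⟨a, ha⟩ ⟨b, hb⟩ → a = b := by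
    intro E a b ha hb _ _ _ hr
    have : (⟨a, ha⟩ : Vert rk) = ⟨b, hb⟩ := hr
    exact congrArg Subtype.val this
  have hgood := sg_good (⊥ : Setoid (Vert rk)) hedge
  refine ⟨Pow rk (sg (⊥ : Setoid (Vert rk))), inferInstance, rkP rk (sg (⊥ : Setoid (Vert rk))),
    finite_pow _, pow_isPolytope _ h hgood, ?_, pow_noDigon _ h hgood hd⟩
  rw [orbits_sg (⊥ : Setoid (Vert rk)) h hedge]
  have : Rel rk (sg (⊥ : Setoid (Vert rk))) = AutRel K := by
    funext Φ Ψ
    apply propext
    constructor
    · rintro ⟨g, -, hg⟩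
      exact ⟨g, hg⟩
    · rintro ⟨g, hg⟩
      refine ⟨g, ?_, hg⟩
      intro v v' hv hv'
      rw [sg_eq_iff _ hv hv', sg_eq_iff _ (by rw [h.rk_map, hv]) (by rw [h.rk_map, hv'])]
      constructor
      · intro h1
        have h2 : (⟨v, hv⟩ : Vert rk) = ⟨v', hv'⟩ := h1
        have h3 : v = v' := congrArg Subtype.val h2
        subst h3
        exact (⊥ : Setoid (Vert rk)).refl' _
      · intro h1
        have h2 : (⟨g v, by rw [h.rk_map, hv]⟩ : Vert rk) = ⟨g v', by rw [h.rk_map, hv']⟩ := h1
        have h3 : v = v' := g.injective (congrArg Subtype.val h2)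
        subst h3
        exact (⊥ : Setoid (Vert rk)).refl' _
  rw [this]
  rfl

end coloured

/-! ### Polygons -/

/-- The faces of a polygon. -/
inductive Pg (q : ℕ) : Type
  | bot : Pg q
  | vert (i : ZMod q) : Pg q
  | edge (i : ZMod q) : Pg q
  | top : Pg q

namespace Pg

variable {q : ℕ}

/-- The incidence relation: the edge `i` joins the vertices `i` and `i + 1`. -/
def le : Pg q → Pg q → Prop
  | .bot, _ => True
  | _, .top => True
  | .vert i, .vert j => i = j
  | .vert i, .edge j => i = j ∨ i = j + 1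
  | .edge i, .edge j => i = j
  | _, _ => False

instance : PartialOrder (Pg q) where
  le := le
  le_refl := by rintro (_ | i | i | _) <;> simp [le]
  le_trans := by
    rintro (_ | i | i | _) (_ | j | j | _) (_ | l | l | _) <;> simp [le] <;> aesop
  le_antisymm := by
    rintro (_ | i | i | _) (_ | j | j | _) <;> simp [le] <;> aesop

theorem bot_le' (x : Pg q) : bot ≤ x := by cases x <;> trivial
theorem le_top' (x : Pg q) : x ≤ top := by cases x <;> trivial
theorem vert_le_vert {i j : ZMod q} : vert i ≤ vert j ↔ i = j := Iff.rfl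
theorem vert_le_edge {i j : ZMod q} : vert i ≤ edge j ↔ i = j ∨ i = j + 1 := Iff.rfl
theorem edge_le_edge {i j : ZMod q} : edge i ≤ edge j ↔ i = j := Iff.rfl
theorem not_edge_le_vert {i j : ZMod q} : ¬ edge i ≤ vert j := id
theorem not_vert_le_bot {i : ZMod q} : ¬ vert i ≤ bot := id
theorem not_edge_le_bot {i : ZMod q} : ¬ edge i ≤ bot := id
theorem not_top_le_bot : ¬ (top : Pg q) ≤ bot := id
theorem not_top_le_vert {i : ZMod q} : ¬ top ≤ vert i := id
theorem not_top_le_edge {i : ZMod q} : ¬ top ≤ edge i := id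

/-- The rank function. -/
def rk : Pg q → ℤ
  | .bot => -1
  | .vert _ => 0
  | .edge _ => 1
  | .top => 2

theorem rk_strictMono : StrictMono (rk (q := q)) := by
  intro x y hxy
  have h1 := hxy.le
  have h2 := hxy.ne
  revert h1 h2
  clear hxy
  rcases x with _ | i | i | _ <;> rcases y with _ | j | j | _ <;>
    simp [bot_le', le_top', vert_le_vert, vert_le_edge, edge_le_edge, not_edge_le_vert,
      not_vert_le_bot, not_edge_le_bot, not_top_le_bot, not_top_le_vert, not_top_le_edge, rk]

/-- The edge of a flag. -/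
def eg (i : ZMod q) (b : Bool) : ZMod q := if b then i else i - 1

theorem vert_le_eg (i : ZMod q) (b : Bool) : vert i ≤ edge (eg i b) := by
  cases b
  · right; simp [eg]
  · left; simp [eg]

/-- The flags. -/
def fl (i : ZMod q) (b : Bool) : Flag (Pg q) :=
  mkFlag {bot, vert i, edge (eg i b), top} (by
    intro a
    constructor
    · rintro (rfl | rfl | rfl | rfl) x (rfl | rfl | rfl | rfl)
      all_goals first
        | exact Or.inl le_rfl
        | exact Or.inl (bot_le' _)
        | exact Or.inr (bot_le' _)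
        | exact Or.inl (le_top' _)
        | exact Or.inr (le_top' _)
        | exact Or.inl (vert_le_eg _ _)
        | exact Or.inr (vert_le_eg _ _)
    · intro hx
      have h1 := hx (vert i) (by simp)
      have h2 := hx (edge (eg i b)) (by simp)
      rcases a with _ | j | j | _
      · simp
      · simp only [vert_le_vert] at h1
        have : j = i := by rcases h1 with h | h <;> simp [h]
        subst this
        simp
      · simp only [edge_le_edge] at h2
        have : j = eg i b := by rcases h2 with h | h <;> simp [h]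
        subst this
        simp
      · simp)

theorem mem_fl {i : ZMod q} {b : Bool} {x : Pg q} :
    x ∈ fl i b ↔ x = bot ∨ x = vert i ∨ x = edge (eg i b) ∨ x = top := Iff.rfl

theorem exists_fl (A : Flag (Pg q)) : ∃ i b, A = fl i b := by
  have hv : ∃ i, vert i ∈ A := by
    by_contra hno
    push Not at hno
    by_cases he : ∃ j, edge j ∈ A
    · obtain ⟨j, hj⟩ := he
      apply hno j
      rw [Flag.mem_iff_forall_le_or_ge]
      intro x hx
      rcases x with _ | i | i | _
      · exact Or.inr (bot_le' _)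
      · exact absurd hx (hno i)
      · left
        have := A.le_or_le hx hj
        simp only [edge_le_edge] at this
        have h1 : i = j := by rcases this with h | h <;> simp [h]
        subst h1
        exact vert_le_edge.2 (Or.inl rfl)
      · exact Or.inl (le_top' _)
    · push Not at he
      apply hno 0
      rw [Flag.mem_iff_forall_le_or_ge]
      intro x hx
      rcases x with _ | i | i | _
      · exact Or.inr (bot_le' _)
      · exact absurd hx (hno i)
      · exact absurd hx (he i)
      · exact Or.inl (le_top' _)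
  obtain ⟨i, hi⟩ := hv
  have he : ∃ j, edge j ∈ A := by
    by_contra he
    push Not at he
    apply he i
    rw [Flag.mem_iff_forall_le_or_ge]
    intro x hx
    rcases x with _ | j | j | _
    · exact Or.inr (bot_le' _)
    · right
      have := A.le_or_le hx hi
      simp only [vert_le_vert] at this
      have h1 : i = j := by rcases this with h | h <;> simp [h]
      subst h1
      exact vert_le_edge.2 (Or.inl rfl)
    · exact absurd hx (he j)
    · exact Or.inl (le_top' _)
  obtain ⟨j, hj⟩ := he
  have hij : i = j ∨ i = j + 1 := by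
    rcases A.le_or_le hi hj with h | h
    · exact vert_le_edge.1 h
    · exact absurd h not_edge_le_vert
  have key : ∀ b, eg i b = j → A = fl i b := by
    intro b hb
    symm
    apply Flag.ext
    apply (fl i b).max_chain' A.Chain'
    intro x hx
    rcases (mem_fl.1 hx) with rfl | rfl | rfl | rfl
    · change _ ∈ A
      rw [Flag.mem_iff_forall_le_or_ge]
      intro x _
      exact Or.inl (bot_le' _)
    · exact hi
    · rw [hb]; exact hj
    · change _ ∈ A
      rw [Flag.mem_iff_forall_le_or_ge]
      intro x _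
      exact Or.inr (le_top' _)
  rcases hij with h | h
  · exact ⟨i, true, key true (by simp [eg, h])⟩
  · exact ⟨i, false, key false (by simp [eg, h])⟩

theorem flag_rank (A : Flag (Pg q)) (i : ℤ) (h1 : -1 ≤ i) (h2 : i ≤ 2) :
    ∃! F, F ∈ A ∧ rk F = i := by
  obtain ⟨j, b, rfl⟩ := exists_fl A
  have h3 : i = -1 ∨ i = 0 ∨ i = 1 ∨ i = 2 := by omega
  rcases h3 with rfl | rfl | rfl | rfl
  · refine ⟨bot, ⟨by simp [mem_fl], rfl⟩, ?_⟩
    rintro F ⟨hF, hF'⟩
    rcases mem_fl.1 hF with rfl | rfl | rfl | rfl <;> simp [rk] at hF' ⊢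
  · refine ⟨vert j, ⟨by simp [mem_fl], rfl⟩, ?_⟩
    rintro F ⟨hF, hF'⟩
    rcases mem_fl.1 hF with rfl | rfl | rfl | rfl <;> simp [rk] at hF' ⊢
  · refine ⟨edge (eg j b), ⟨by simp [mem_fl], rfl⟩, ?_⟩
    rintro F ⟨hF, hF'⟩
    rcases mem_fl.1 hF with rfl | rfl | rfl | rfl <;> simp [rk] at hF' ⊢
  · refine ⟨top, ⟨by simp [mem_fl], rfl⟩, ?_⟩
    rintro F ⟨hF, hF'⟩
    rcases mem_fl.1 hF with rfl | rfl | rfl | rfl <;> simp [rk] at hF' ⊢

theorem one_ne_zero' (hq : 3 ≤ q) : (1 : ZMod q) ≠ 0 := by
  have : Fact (1 < q) := ⟨by omega⟩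
  exact one_ne_zero

theorem ne_sub_one (hq : 3 ≤ q) (i : ZMod q) : i ≠ i - 1 := by
  intro h
  apply one_ne_zero' hq
  linear_combination h

theorem adj_vert (hq : 3 ≤ q) (i : ZMod q) (b : Bool) : Adj (fl i b) (fl i (!b)) := by
  have h1 := ne_sub_one hq i
  have h2 : eg i b ≠ eg i (!b) := by
    cases b
    · simpa [eg] using h1.symm
    · simpa [eg] using h1
  refine ⟨edge (eg i b), by simp [mem_fl], edge (eg i (!b)), by simp [mem_fl], ?_, ?_⟩
  · simpa using h2
  · ext x
    simp only [Set.mem_sdiff, Flag.mem_coe_iff, mem_fl, Set.mem_singleton_iff]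
    rcases x with _ | j | j | _ <;> simp

theorem adj_edge (hq : 3 ≤ q) (i : ZMod q) : Adj (fl i true) (fl (i + 1) false) := by
  have h1 := one_ne_zero' hq
  refine ⟨vert i, by simp [mem_fl], vert (i + 1), by simp [mem_fl], by simp [h1], ?_⟩
  ext x
  simp only [Set.mem_sdiff, Flag.mem_coe_iff, mem_fl, Set.mem_singleton_iff]
  rcases x with _ | j | j | _ <;> simp [eg]

theorem conn_nat (hq : 3 ≤ q) (m : ℕ) :
    Conn {(bot : Pg q), top} (fl 0 true) (fl (m : ZMod q) true) := by
  have hk : ∀ (i j : ZMod q) (b c : Bool), ∀ F ∈ ({(bot : Pg q), top} : Set (Pg q)),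
      F ∈ fl i b ∧ F ∈ fl j c := by
    rintro i j b c F (rfl | rfl) <;> simp [mem_fl]
  induction m with
  | zero => rw [Nat.cast_zero]; exact .refl
  | succ m ih =>
    refine (ih.tail ⟨adj_edge hq _, hk _ _ _ _⟩).tail ⟨?_, hk _ _ _ _⟩
    push_cast
    exact adj_vert hq _ false

theorem conn_all (hq : 3 ≤ q) (i : ZMod q) (b : Bool) :
    Conn {(bot : Pg q), top} (fl 0 true) (fl i b) := by
  have : NeZero q := ⟨by omega⟩
  have h1 := conn_nat hq i.val
  rw [ZMod.natCast_zmod_val] at h1
  cases b
  · refine h1.tail ⟨adj_vert hq _ true, ?_⟩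
    rintro F (rfl | rfl) <;> simp [mem_fl]
  · exact h1

theorem connected (hq : 3 ≤ q) (Φ Ψ : Flag (Pg q)) :
    Relation.ReflTransGen (fun A B => Adj A B ∧ ∀ F ∈ Φ, F ∈ Ψ → F ∈ A ∧ F ∈ B) Φ Ψ := by
  obtain ⟨i, b, rfl⟩ := exists_fl Φ
  obtain ⟨j, c, rfl⟩ := exists_fl Ψ
  by_cases hij : i = j
  · subst hij
    by_cases hbc : b = c
    · subst hbc; exact .refl
    · have : c = !b := by cases b <;> cases c <;> simp_all
      subst this
      exact .single ⟨adj_vert hq i b, fun F h1 h2 => ⟨h1, h2⟩⟩
  · by_cases he : eg i b = eg j c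
    · cases b <;> cases c
      · simp [eg] at he; exact absurd he hij
      · simp only [eg, Bool.false_eq_true, if_false, if_true] at he
        have : i = j + 1 := by rw [← he]; ring
        subst this
        exact .single ⟨(adj_edge hq j).symm, fun F h1 h2 => ⟨h1, h2⟩⟩
      · simp only [eg, Bool.false_eq_true, if_false, if_true] at he
        have : j = i + 1 := by rw [he]; ring
        subst this
        exact .single ⟨adj_edge hq i, fun F h1 h2 => ⟨h1, h2⟩⟩
      · simp [eg] at he; exact absurd he hij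
    · have h1 := (conn_all hq i b).symm.trans (conn_all hq j c)
      refine Relation.ReflTransGen.mono ?_ _ _ h1
      rintro A B ⟨h2, h3⟩
      refine ⟨h2, ?_⟩
      intro F hF hF'
      apply h3
      rcases mem_fl.1 hF with rfl | rfl | rfl | rfl
      · simp
      · simp [mem_fl] at hF'; exact absurd hF' hij
      · simp [mem_fl] at hF'; exact absurd hF' he
      · simp

theorem diamond (hq : 3 ≤ q) (F G : Pg q) (h : F < G) (hr : rk G = rk F + 2) :
    {H | F < H ∧ H < G}.ncard = 2 := by
  have h1 := one_ne_zero' hq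
  rcases F with _ | i | i | _ <;> rcases G with _ | j | j | _ <;> simp [rk] at hr
  · have : {H | (bot : Pg q) < H ∧ H < edge j} = {vert j, vert (j + 1)} := by
      ext x
      rcases x with _ | l | l | _
      · simp
      · simp [lt_iff_le_and_ne, bot_le', vert_le_edge]
      · simp [lt_iff_le_and_ne, edge_le_edge]
      · simp [lt_iff_le_and_ne, not_top_le_edge]
    rw [this]
    apply Set.ncard_pair
    simp [h1]
  · have : {H | vert i < H ∧ H < (top : Pg q)} = {edge i, edge (i - 1)} := by
      ext x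
      rcases x with _ | l | l | _
      · simp [lt_iff_le_and_ne, not_vert_le_bot]
      · simp [lt_iff_le_and_ne, vert_le_vert]
      · simp only [lt_iff_le_and_ne, vert_le_edge, le_top', Set.mem_ofPred_eq,
          Set.mem_insert_iff, Set.mem_singleton_iff, edge.injEq, ne_eq, reduceCtorEq,
          not_false_eq_true, and_true]
        constructor
        · rintro (h | h)
          · left; exact h.symm
          · right; rw [h]; ring
        · rintro (h | h)
          · left; exact h.symm
          · right; rw [h]; ring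
      · simp
    rw [this]
    apply Set.ncard_pair
    simpa using ne_sub_one hq i

/-- Polygons are polytopes of rank two. -/
theorem isPolytope (hq : 3 ≤ q) : IsPolytope 2 (rk (q := q)) where
  strictMono := rk_strictMono
  least := ⟨bot, rfl, bot_le'⟩
  greatest := ⟨top, rfl, le_top'⟩
  flag_rank := flag_rank
  connected := connected hq
  diamond := diamond hq

theorem noDigon (hq : 3 ≤ q) : NoDigon (rk (q := q)) := by
  intro F G _ hr
  rcases F with _ | i | i | _ <;> rcases G with _ | j | j | _ <;> simp [rk] at hr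
  have : {H | (bot : Pg q) < H ∧ H < top ∧ rk H = rk (bot : Pg q) + 1} =
      vert '' (Set.univ : Set (ZMod q)) := by
    ext x
    rcases x with _ | l | l | _
    · simp
    · simp [lt_iff_le_and_ne, bot_le', le_top', rk]
    · simp [rk]
    · simp
  rw [this, Set.ncard_image_of_injective _ (fun a b h => by simpa using h), Set.ncard_univ,
    Nat.card_zmod]
  omega

/-- Rotations. -/
def rot (t : ZMod q) : Pg q ≃o Pg q where
  toFun x := match x with
    | .bot => .bot
    | .vert i => .vert (t + i)
    | .edge i => .edge (t + i)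
    | .top => .top
  invFun x := match x with
    | .bot => .bot
    | .vert i => .vert (i - t)
    | .edge i => .edge (i - t)
    | .top => .top
  left_inv := by rintro (_ | i | i | _) <;> simp
  right_inv := by rintro (_ | i | i | _) <;> simp
  map_rel_iff' := by
    intro x y
    rcases x with _ | i | i | _ <;> rcases y with _ | j | j | _ <;>
      simp [bot_le', le_top', vert_le_vert, vert_le_edge, edge_le_edge, not_edge_le_vert,
        not_vert_le_bot, not_edge_le_bot, not_top_le_bot, not_top_le_vert, not_top_le_edge,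
        add_assoc]

/-- Reflections. -/
def refl (t : ZMod q) : Pg q ≃o Pg q where
  toFun x := match x with
    | .bot => .bot
    | .vert i => .vert (t - i)
    | .edge i => .edge (t - i - 1)
    | .top => .top
  invFun x := match x with
    | .bot => .bot
    | .vert i => .vert (t - i)
    | .edge i => .edge (t - i - 1)
    | .top => .top
  left_inv := by
    rintro (_ | i | i | _)
    · rfl
    · simp
    · change edge _ = _
      congr 1
      ring
    · rfl
  right_inv := by
    rintro (_ | i | i | _)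
    · rfl
    · simp
    · change edge _ = _
      congr 1
      ring
    · rfl
  map_rel_iff' := by
    intro x y
    rcases x with _ | i | i | _ <;> rcases y with _ | j | j | _ <;>
      simp [bot_le', le_top', vert_le_vert, vert_le_edge, edge_le_edge, not_edge_le_vert,
        not_vert_le_bot, not_edge_le_bot, not_top_le_bot, not_top_le_vert, not_top_le_edge]
    constructor
    · rintro (h | h)
      · right; linear_combination -h
      · left; exact h
    · rintro (h | h)
      · right; exact h
      · left; rw [h]; ring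

theorem map_rot (t i : ZMod q) (b : Bool) : Flag.map (rot t) (fl i b) = fl (t + i) b := by
  apply map_eq_of_forall
  intro x hx
  rcases mem_fl.1 hx with rfl | rfl | rfl | rfl
  · exact mem_fl.2 (Or.inl rfl)
  · exact mem_fl.2 (Or.inr (Or.inl rfl))
  · refine mem_fl.2 (Or.inr (Or.inr (Or.inl ?_)))
    change edge _ = edge _
    congr 1
    cases b <;> simp [eg]; ring
  · exact mem_fl.2 (Or.inr (Or.inr (Or.inr rfl)))

theorem map_refl (t i : ZMod q) (b : Bool) : Flag.map (refl t) (fl i b) = fl (t - i) (!b) := by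
  apply map_eq_of_forall
  intro x hx
  rcases mem_fl.1 hx with rfl | rfl | rfl | rfl
  · exact mem_fl.2 (Or.inl rfl)
  · exact mem_fl.2 (Or.inr (Or.inl rfl))
  · refine mem_fl.2 (Or.inr (Or.inr (Or.inl ?_)))
    change edge _ = edge _
    congr 1
    cases b
    · simp [eg]; ring
    · simp [eg]
  · exact mem_fl.2 (Or.inr (Or.inr (Or.inr rfl)))

theorem fl_inj (hq : 3 ≤ q) {i j : ZMod q} {b c : Bool} (h : fl i b = fl j c) :
    i = j ∧ b = c := by
  have h1 : vert i ∈ fl j c := by rw [← h]; simp [mem_fl]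
  have h2 : edge (eg i b) ∈ fl j c := by rw [← h]; simp [mem_fl]
  simp [mem_fl] at h1 h2
  subst h1
  refine ⟨rfl, ?_⟩
  have h3 := ne_sub_one hq i
  cases b <;> cases c
  · rfl
  · simp only [eg, Bool.false_eq_true, if_false, if_true] at h2
    exact absurd h2.symm h3
  · simp only [eg, Bool.false_eq_true, if_false, if_true] at h2
    exact absurd h2 h3
  · rfl

/-- All automorphisms are rotations or reflections. -/
theorem aut_form (hq : 3 ≤ q) (g : Pg q ≃o Pg q) :
    (∃ t, ∀ i, g (vert i) = vert (t + i) ∧ g (edge i) = edge (t + i)) ∨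
      (∃ t, ∀ i, g (vert i) = vert (t - i) ∧ g (edge i) = edge (t - i - 1)) := by
  have : NeZero q := ⟨by omega⟩
  have hone := one_ne_zero' hq
  have hf : ∀ i, ∃ j, g (vert i) = vert j := by
    intro i
    have h1 := (isPolytope hq).rk_map g (vert i)
    revert h1
    rcases g (vert i) with _ | j | j | _ <;> simp [rk]
  have hh : ∀ i, ∃ j, g (edge i) = edge j := by
    intro i
    have h1 := (isPolytope hq).rk_map g (edge i)
    revert h1
    rcases g (edge i) with _ | j | j | _ <;> simp [rk]
  choose f hf using hf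
  choose h hh using hh
  have f_inj : ∀ i j, f i = f j → i = j := by
    intro i j hij
    have : g (vert i) = g (vert j) := by rw [hf, hf, hij]
    simpa using this
  have h_inj : ∀ i j, h i = h j → i = j := by
    intro i j hij
    have : g (edge i) = g (edge j) := by rw [hh, hh, hij]
    simpa using this
  have inc1 : ∀ i, f i = h i ∨ f i = h i + 1 := by
    intro i
    have h1 : g (vert i) ≤ g (edge i) := g.monotone (vert_le_edge.2 (Or.inl rfl))
    rw [hf, hh] at h1
    exact vert_le_edge.1 h1
  have inc2 : ∀ i, f (i + 1) = h i ∨ f (i + 1) = h i + 1 := by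
    intro i
    have h1 : g (vert (i + 1)) ≤ g (edge i) := g.monotone (vert_le_edge.2 (Or.inr rfl))
    rw [hf, hh] at h1
    exact vert_le_edge.1 h1
  have nf : ∀ i, f i ≠ f (i + 1) := by
    intro i hi
    have := f_inj _ _ hi
    apply hone
    linear_combination -this
  have nh : ∀ i, h i ≠ h (i + 1) := by
    intro i hi
    have := h_inj _ _ hi
    apply hone
    linear_combination -this
  rcases inc1 0 with h0 | h0
  · left
    have key : ∀ m : ℕ, f m = f 0 + m ∧ h m = f 0 + m := by
      intro m
      induction m with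
      | zero => simp [h0]
      | succ m ih =>
        obtain ⟨ih1, ih2⟩ := ih
        push_cast
        have h1 : f ((m : ZMod q) + 1) = h m + 1 := by
          rcases inc2 (m : ZMod q) with h1 | h1
          · exfalso
            apply nf (m : ZMod q)
            rw [h1, ih1, ih2]
          · exact h1
        have h2 : h ((m : ZMod q) + 1) = f ((m : ZMod q) + 1) := by
          rcases inc1 ((m : ZMod q) + 1) with h2 | h2
          · exact h2.symm
          · exfalso
            apply nh (m : ZMod q)
            rw [h1] at h2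
            exact add_right_cancel h2
        rw [h2, h1, ih2]
        constructor <;> ring
    refine ⟨f 0, fun i => ?_⟩
    have h1 := key i.val
    rw [ZMod.natCast_zmod_val] at h1
    rw [hf, hh, h1.1, h1.2]
    exact ⟨rfl, rfl⟩
  · right
    have key : ∀ m : ℕ, f m = f 0 - m ∧ h m = f 0 - m - 1 := by
      intro m
      induction m with
      | zero =>
        constructor
        · simp
        · simp [h0]
      | succ m ih =>
        obtain ⟨ih1, ih2⟩ := ih
        push_cast
        have h1 : f ((m : ZMod q) + 1) = h m := by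
          rcases inc2 (m : ZMod q) with h1 | h1
          · exact h1
          · exfalso
            apply nf (m : ZMod q)
            rw [h1, ih1, ih2]
            ring
        have h2 : f ((m : ZMod q) + 1) = h ((m : ZMod q) + 1) + 1 := by
          rcases inc1 ((m : ZMod q) + 1) with h2 | h2
          · exfalso
            apply nh (m : ZMod q)
            rw [← h1, h2]
          · exact h2
        have h3 : h ((m : ZMod q) + 1) = h m - 1 := by
          rw [← h1, h2]; ring
        rw [h3, h1, ih2]
        constructor <;> ring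
    refine ⟨f 0, fun i => ?_⟩
    have h1 := key i.val
    rw [ZMod.natCast_zmod_val] at h1
    rw [hf, hh, h1.1, h1.2]
    exact ⟨rfl, rfl⟩

/-- Polygons are regular. -/
theorem orbits_one : flagOrbits (Pg q) = 1 := by
  unfold flagOrbits
  rw [Nat.card_eq_one_iff_unique]
  refine ⟨⟨?_⟩, ⟨Quot.mk _ (fl 0 true)⟩⟩
  have key : ∀ Φ : Flag (Pg q), Quot.mk (fun Φ Ψ : Flag (Pg q) =>
      ∃ g : Pg q ≃o Pg q, Flag.map g Φ = Ψ) Φ = Quot.mk _ (fl 0 true) := by
    intro Φ
    obtain ⟨i, b, rfl⟩ := exists_fl Φ
    apply Quot.sound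
    cases b
    · exact ⟨refl i, by rw [map_refl]; simp⟩
    · exact ⟨rot (-i), by rw [map_rot]; simp⟩
  rintro ⟨Φ⟩ ⟨Ψ⟩
  rw [key Φ, key Ψ]

/-- The index of a vertex. -/
def idx : Pg q → ZMod q
  | .vert i => i
  | _ => 0

/-- The colouring of the vertices of the `2k`-gon that identifies two antipodal vertices. -/
def col (q : ℕ) : Setoid (Vert (rk (q := q))) where
  r v v' := v = v' ∨ (idx v.1 + idx v.1 = 0 ∧ idx v'.1 + idx v'.1 = 0)
  iseqv := {
    refl := fun v => Or.inl rfl
    symm := by
      rintro v v' (h | h)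
      · exact Or.inl h.symm
      · exact Or.inr ⟨h.2, h.1⟩
    trans := by
      rintro v v' v'' (rfl | h) (rfl | h')
      · exact Or.inl rfl
      · exact Or.inr h'
      · exact Or.inr h
      · exact Or.inr ⟨h.1, h'.2⟩ }

theorem col_iff {i j : ZMod q} :
    (col q) ⟨vert i, rfl⟩ ⟨vert j, rfl⟩ ↔ i = j ∨ (i + i = 0 ∧ j + j = 0) := by
  constructor
  · rintro (h | h)
    · left
      have h1 : (vert i : Pg q) = vert j := congrArg Subtype.val h
      simpa using h1
    · right; exact h
  · rintro (h | h)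
    · subst h; exact Or.inl rfl
    · exact Or.inr h

theorem sg_col_iff {i j : ZMod q} :
    sg (col q) (vert i) = sg (col q) (vert j) ↔ i = j ∨ (i + i = 0 ∧ j + j = 0) := by
  rw [sg_eq_iff (col q) (v := vert i) (v' := vert j) rfl rfl, col_iff]

theorem vert_of_rk {v : Pg q} (hv : rk v = 0) : ∃ i, v = vert i := by
  rcases v with _ | i | i | _ <;> simp [rk] at hv ⊢

theorem rel_rot {t : ZMod q} (ht : t + t = 0) (i : ZMod q) (b : Bool) :
    Rel rk (sg (col q)) (fl i b) (fl (t + i) b) := by
  refine ⟨rot t, ?_, map_rot t i b⟩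
  intro v v' hv hv'
  obtain ⟨a, rfl⟩ := vert_of_rk hv
  obtain ⟨c, rfl⟩ := vert_of_rk hv'
  change _ ↔ sg (col q) (vert (t + a)) = sg (col q) (vert (t + c))
  rw [sg_col_iff, sg_col_iff]
  have h1 : ∀ x : ZMod q, t + x + (t + x) = x + x := by
    intro x; linear_combination ht
  rw [h1, h1, add_right_inj]

theorem rel_refl {t : ZMod q} (ht : t + t = 0) (i : ZMod q) (b : Bool) :
    Rel rk (sg (col q)) (fl i b) (fl (t - i) (!b)) := by
  refine ⟨refl t, ?_, map_refl t i b⟩
  intro v v' hv hv'
  obtain ⟨a, rfl⟩ := vert_of_rk hv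
  obtain ⟨c, rfl⟩ := vert_of_rk hv'
  change _ ↔ sg (col q) (vert (t - a)) = sg (col q) (vert (t - c))
  rw [sg_col_iff, sg_col_iff]
  have h1 : ∀ x : ZMod q, t - x + (t - x) = 0 ↔ x + x = 0 := by
    intro x
    constructor
    · intro h; linear_combination ht - h
    · intro h; linear_combination ht - h
  rw [h1, h1, sub_right_inj]

theorem of_rel {k : ℕ} (hk : 2 ≤ k) {i j : ZMod (2 * k)} {b c : Bool}
    (h : Rel rk (sg (col (2 * k))) (fl i b) (fl j c)) :
    ∃ t : ZMod (2 * k), t + t = 0 ∧ ((j = t + i ∧ c = b) ∨ (j = t - i ∧ c = !b)) := by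
  have hq : 3 ≤ 2 * k := by omega
  have hkk : (k : ZMod (2 * k)) + k = 0 := by
    have h1 : ((2 * k : ℕ) : ZMod (2 * k)) = 0 := ZMod.natCast_self _
    push_cast at h1
    linear_combination h1
  have hk0 : (k : ZMod (2 * k)) ≠ 0 := by
    intro h1
    rw [ZMod.natCast_eq_zero_iff] at h1
    have := Nat.le_of_dvd (by omega) h1
    omega
  obtain ⟨g, hg, hgm⟩ := h
  have h1 := hg (vert 0) (vert k) rfl rfl
  have h2 : sg (col (2 * k)) (vert 0) = sg (col (2 * k)) (vert k) := by
    rw [sg_col_iff]
    right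
    exact ⟨by simp, hkk⟩
  have h3 := h1.1 h2
  have hv : g (vert i) ∈ fl j c := by
    rw [← hgm]
    exact mem_map g _ (by simp [mem_fl])
  have he : g (edge (eg i b)) ∈ fl j c := by
    rw [← hgm]
    exact mem_map g _ (by simp [mem_fl])
  rcases aut_form hq g with ⟨t, ht⟩ | ⟨t, ht⟩
  · rw [(ht 0).1, (ht k).1, sg_col_iff] at h3
    rw [(ht i).1] at hv
    rw [(ht _).2] at he
    simp [mem_fl] at hv he
    refine ⟨t, ?_, Or.inl ⟨hv.symm, ?_⟩⟩
    · rcases h3 with h3 | h3
      · exfalso
        apply hk0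
        linear_combination -h3
      · simpa using h3.1
    · subst hv
      have h4 := ne_sub_one hq i
      cases b <;> cases c
      · rfl
      · simp only [eg, Bool.false_eq_true, if_false, if_true] at he
        exact absurd (add_left_cancel he).symm h4
      · simp only [eg, Bool.false_eq_true, if_false, if_true] at he
        exfalso
        apply h4
        linear_combination he
      · rfl
  · rw [(ht 0).1, (ht k).1, sg_col_iff] at h3
    rw [(ht i).1] at hv
    rw [(ht _).2] at he
    simp [mem_fl] at hv he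
    refine ⟨t, ?_, Or.inr ⟨hv.symm, ?_⟩⟩
    · rcases h3 with h3 | h3
      · exfalso
        apply hk0
        linear_combination h3
      · simpa using h3.1
    · subst hv
      have h4 := ne_sub_one hq i
      cases b <;> cases c
      · simp only [eg, Bool.false_eq_true, if_false] at he
        exfalso
        apply h4
        linear_combination he
      · rfl
      · rfl
      · simp only [eg, if_true] at he
        exfalso
        apply h4
        linear_combination -he

theorem orbits_col {k : ℕ} (hk : 2 ≤ k) :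
    Nat.card (Quot (Rel (rk (q := 2 * k)) (sg (col (2 * k))))) = k := by
  have hq : 3 ≤ 2 * k := by omega
  have : NeZero (2 * k) := ⟨by omega⟩
  have hp := isPolytope hq
  have hmod : ∀ i : ZMod (2 * k), ∃ (m : Fin k) (t : ZMod (2 * k)), t + t = 0 ∧
      i = t + (m.val : ZMod (2 * k)) := by
    intro i
    refine ⟨⟨i.val % k, Nat.mod_lt _ (by omega)⟩, ((k * (i.val / k) : ℕ) : ZMod (2 * k)), ?_, ?_⟩
    · have h1 : ((2 * k * (i.val / k) : ℕ) : ZMod (2 * k)) = 0 := by
        rw [ZMod.natCast_eq_zero_iff]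
        exact dvd_mul_right _ _
      push_cast at h1 ⊢
      linear_combination h1
    · rw [← Nat.cast_add, Nat.div_add_mod, ZMod.natCast_zmod_val]
  have hbij : Function.Bijective (fun m : Fin k =>
      (Quot.mk _ (fl (m.val : ZMod (2 * k)) true) :
        Quot (Rel (rk (q := 2 * k)) (sg (col (2 * k)))))) := by
    constructor
    · intro m m' hmm
      simp only [Quot.eq, (rel_equivalence (sg (col (2 * k))) hp).eqvGen_iff] at hmm
      obtain ⟨t, ht, h | h⟩ := of_rel hk hmm
      · have h1 : ((2 * m'.val : ℕ) : ZMod (2 * k)) = ((2 * m.val : ℕ) : ZMod (2 * k)) := by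
          push_cast
          linear_combination 2 * h.1 + ht
        rw [ZMod.natCast_eq_natCast_iff', Nat.mod_eq_of_lt (by omega),
          Nat.mod_eq_of_lt (by omega)] at h1
        apply Fin.ext
        omega
      · simp at h
    · rintro ⟨Φ⟩
      obtain ⟨i, b, rfl⟩ := exists_fl Φ
      cases b
      · obtain ⟨m, t, ht, hi⟩ := hmod (-i)
        refine ⟨m, ?_⟩
        apply Quot.sound
        have h1 := rel_refl (t := -t) (by linear_combination -ht) (m.val : ZMod (2 * k)) true
        have h2 : -t - (m.val : ZMod (2 * k)) = i := by linear_combination hi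
        rw [h2] at h1
        exact h1
      · obtain ⟨m, t, ht, hi⟩ := hmod i
        refine ⟨m, ?_⟩
        apply Quot.sound
        have h1 := rel_rot ht (m.val : ZMod (2 * k)) true
        rw [← hi] at h1
        exact h1
  rw [← Nat.card_congr (Equiv.ofBijective _ hbij), Nat.card_fin]

theorem finite (hq : 3 ≤ q) : Finite (Pg q) := by
  have : NeZero q := ⟨by omega⟩
  refine Finite.of_surjective (fun x : Option (Option (ZMod q ⊕ ZMod q)) => match x with
    | none => (bot : Pg q)
    | some none => top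
    | some (some (.inl i)) => vert i
    | some (some (.inr i)) => edge i) ?_
  rintro (_ | i | i | _)
  · exact ⟨none, rfl⟩
  · exact ⟨some (some (.inl i)), rfl⟩
  · exact ⟨some (some (.inr i)), rfl⟩
  · exact ⟨some none, rfl⟩

theorem exists_base {k : ℕ} (hk : 1 ≤ k) :
    ∃ (P : Type) (_ : PartialOrder P) (rk' : P → ℤ), Finite P ∧ IsPolytope 3 rk' ∧
      flagOrbits P = k ∧ NoDigon rk' := by
  rcases hk.lt_or_eq with hk | hk
  · have hq : 3 ≤ 2 * k := by omega
    have hp := isPolytope hq
    have hedge : ∀ (E a b : Pg (2 * k)) (ha : rk a = 0) (hb : rk b = 0), rk E = 1 → a ≤ E →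
        b ≤ E → (col (2 * k)) ⟨a, ha⟩ ⟨b, hb⟩ → a = b := by
      intro E a b ha hb hE ha' hb' hab
      obtain ⟨i, rfl⟩ := vert_of_rk ha
      obtain ⟨j, rfl⟩ := vert_of_rk hb
      rw [col_iff] at hab
      rcases E with _ | l | l | _ <;> simp [rk] at hE
      rw [vert_le_edge] at ha' hb'
      have h2 : (2 : ZMod (2 * k)) ≠ 0 := by
        intro h2
        have h3 : ((2 : ℕ) : ZMod (2 * k)) = 0 := by exact_mod_cast h2
        rw [ZMod.natCast_eq_zero_iff] at h3
        have := Nat.le_of_dvd (by omega) h3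
        omega
      rcases hab with hab | ⟨h3, h4⟩
      · rw [hab]
      · rcases ha' with rfl | rfl <;> rcases hb' with rfl | rfl
        · rfl
        · exfalso; apply h2; linear_combination h4 - h3
        · exfalso; apply h2; linear_combination h3 - h4
        · rfl
    have hgood := sg_good (col (2 * k)) hedge
    have hfin := finite hq
    refine ⟨Pow rk (sg (col (2 * k))), inferInstance, rkP rk (sg (col (2 * k))),
      finite_pow _, pow_isPolytope _ hp hgood, ?_, pow_noDigon _ hp hgood (noDigon hq)⟩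
    rw [orbits_sg (col (2 * k)) hp hedge, orbits_col hk]
  · subst hk
    have hfin := finite (q := 3) le_rfl
    obtain ⟨P, iP, rk', h0, h1, h2, h3⟩ :=
      exists_step (isPolytope (q := 3) le_rfl) (noDigon le_rfl)
    exact ⟨P, iP, rk', h0, h1, by rw [h2, orbits_one], h3⟩

end Pg

/-- For every `k ≥ 1` and `n ≥ 3` there is a finite `k`-orbit `n`-polytope none of whose sections
of rank two is a digon. -/
theorem result : ∀ k : ℕ, 1 ≤ k → ∀ n : ℤ, 3 ≤ n →
    ∃ (P : Type) (_ : PartialOrder P) (rk : P → ℤ),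
      Finite P ∧ IsPolytope n rk ∧ flagOrbits P = k ∧ NoDigon rk := by
  intro k hk n hn
  have key : ∀ m : ℕ, ∃ (P : Type) (_ : PartialOrder P) (rk : P → ℤ),
      Finite P ∧ IsPolytope (3 + m) rk ∧ flagOrbits P = k ∧ NoDigon rk := by
    intro m
    induction m with
    | zero => simpa using Pg.exists_base hk
    | succ m ih =>
      obtain ⟨P, iP, rk, h0, h1, h2, h3⟩ := ih
      obtain ⟨P', iP', rk', h0', h1', h2', h3'⟩ := exists_step h1 h3
      refine ⟨P', iP', rk', h0', ?_, by rw [h2', h2], h3'⟩
      push_cast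
      rw [← add_assoc]
      exact h1'
  obtain ⟨m, hm⟩ := Int.eq_ofNat_of_zero_le (show 0 ≤ n - 3 by omega)
  have : n = 3 + m := by omega
  rw [this]
  exact key m

end Pool.Agent.Results.MP_53fdf7_co.KOrbit
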